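import Pool.Agent.Q6.PS.Main
import Pool.Agent.Q6.HP.Cor

/-!
# Properties of almost all graphs without a given graph with a critical edge
-/

set_option autoImplicit false
set_option maxHeartbeats 400000

namespace Pool.Agent.Q6.PS

open Finset Filter
open Pool.Agent.Q6.KPR (co mem_co)

theorem colorable_of_contained {A V : Type} {F : SimpleGraph A} {G : SimpleGraph V} {r : ℕ}
    (h : F.IsContained G) (hG : G.Colorable r) : F.Colorable r := by
  obtain ⟨f⟩ := h
  obtain ⟨C⟩ := hG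
  exact ⟨C.comp f.toHom⟩

/-- A property of almost all graphs between any two graphs with large uncertainty holds for almost
all graphs which do not contain a given graph with a critical edge, and for almost all graphs whose
complements do not contain it. -/
theorem transfer (P : ∀ n : ℕ, SimpleGraph (Fin n) → Prop) (hP : Pool.Agent.Q6.HP.Typical P)
    {A : Type} [Fintype A] (F : SimpleGraph A) (r : ℕ) (hr : 2 ≤ r) (hF : ¬ F.Colorable r)
    (hcrit : ∃ e ∈ F.edgeSet, (F.deleteEdges {e}).Colorable r) (ε : ℝ) (hε : 0 < ε) :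
    ∃ N : ℕ, ∀ n : ℕ, N ≤ n →
      ({G : SimpleGraph (Fin n) | F.Free G ∧ ¬ P n G}.ncard : ℝ) ≤
        ε * {G : SimpleGraph (Fin n) | F.Free G}.ncard ∧
      ({G : SimpleGraph (Fin n) | F.Free Gᶜ ∧ ¬ P n G}.ncard : ℝ) ≤
        ε * {G : SimpleGraph (Fin n) | F.Free Gᶜ}.ncard := by
  classical
  obtain ⟨p, rfl⟩ : ∃ p, r = p + 1 := ⟨r - 1, by omega⟩
  obtain ⟨e, he, hc⟩ := hcrit
  have hex : ∃ u v, e = s(u, v) := by
    induction e using Sym2.ind with
    | _ u v => exact ⟨u, v, rfl⟩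
  obtain ⟨u, v, rfl⟩ := hex
  obtain ⟨N1, hN1⟩ := critical F p (by omega) u v he hc hF (ε / 2) (by positivity)
  obtain ⟨N2, hN2⟩ := Pool.Agent.Q129.AAC.almost_all P hP (ε / 2) (by positivity)
  refine ⟨max N1 (max N2 ((p + 1) ^ 6)), fun n hn => ?_⟩
  have h1 := hN1 n ((le_max_left _ _).trans hn)
  have h2 := hN2 n ((le_max_left _ _).trans ((le_max_right _ _).trans hn)) (p + 1) hr
    ((le_max_right _ _).trans ((le_max_right _ _).trans hn))
  have hco : ((co (p + 1) n).card : ℝ) = {G : SimpleGraph (Fin n) | G.Colorable (p + 1)}.ncard := by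
    rw [← Set.ncard_coe_finset]
    congr 2
    ext G
    simp [mem_co]
  have hff : ((ff F n).card : ℝ) = {G : SimpleGraph (Fin n) | F.Free G}.ncard := by
    rw [← Set.ncard_coe_finset]
    congr 2
    ext G
    simp [mem_ff]
  have hsub : co (p + 1) n ⊆ ff F n := by
    intro G hG
    rw [mem_co] at hG
    rw [mem_ff]
    by_contra hcon
    exact hF (colorable_of_contained hcon hG)
  have hle : ((co (p + 1) n).card : ℝ) ≤ (ff F n).card := by
    exact_mod_cast Finset.card_le_card hsub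
  have hd : ((ff F n \ co (p + 1) n).card : ℝ) =
      {G : SimpleGraph (Fin n) | F.Free G ∧ ¬ G.Colorable (p + 1)}.ncard := by
    rw [← Set.ncard_coe_finset]
    congr 2
    ext G
    simp [mem_co, mem_ff]
  have h0 : ∀ G : SimpleGraph (Fin n), (∃ f : Fin n → Fin (p + 1), ∀ u v, u ≠ v → f u = f v →
      (G.Adj u v ↔ f u ∈ (∅ : Set (Fin (p + 1))))) ↔ G.Colorable (p + 1) := by
    intro G
    constructor
    · rintro ⟨f, hf⟩
      exact ⟨SimpleGraph.Coloring.mk f (fun {u v} huv he => (hf u v huv.ne he).1 huv)⟩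
    · rintro ⟨C⟩
      exact ⟨C, fun u v _ he => ⟨fun huv => absurd he (C.valid huv), fun h => h.elim⟩⟩
  have h0' : ∀ G : SimpleGraph (Fin n), (∃ f : Fin n → Fin (p + 1), ∀ u v, u ≠ v → f u = f v →
      (G.Adj u v ↔ f u ∈ (Set.univ : Set (Fin (p + 1))))) ↔ Gᶜ.Colorable (p + 1) := by
    intro G
    constructor
    · rintro ⟨f, hf⟩
      refine ⟨SimpleGraph.Coloring.mk f (fun {u v} huv he => ?_)⟩
      rw [SimpleGraph.compl_adj] at huv
      exact huv.2 ((hf u v huv.1 he).2 (Set.mem_univ _))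
    · rintro ⟨C⟩
      refine ⟨C, fun u v hne he => ⟨fun _ => Set.mem_univ _, fun _ => ?_⟩⟩
      by_contra hcon
      exact C.valid (show Gᶜ.Adj u v from (SimpleGraph.compl_adj _ _ _).2 ⟨hne, hcon⟩) he
  have h3 := h2 ∅
  have h4 := h2 Set.univ
  simp only [h0] at h3
  simp only [h0'] at h4
  -- complementation
  have hcomp : ∀ Q : SimpleGraph (Fin n) → Prop,
      {G : SimpleGraph (Fin n) | Q Gᶜ}.ncard = {G : SimpleGraph (Fin n) | Q G}.ncard := by
    intro Q
    apply Set.ncard_congr (fun G _ => Gᶜ)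
    · intro G hG
      exact hG
    · intro G G' _ _ h
      exact compl_injective h
    · intro G hG
      refine ⟨Gᶜ, ?_, compl_compl G⟩
      show Q Gᶜᶜ
      rw [compl_compl]
      exact hG
  have hcc := hcomp (fun G => G.Colorable (p + 1))
  have hcf := hcomp (fun G => F.Free G)
  have hcd := hcomp (fun G => F.Free G ∧ ¬ G.Colorable (p + 1))
  constructor
  · have h5 : ({G : SimpleGraph (Fin n) | F.Free G ∧ ¬ P n G}.ncard : ℝ) ≤
        {G : SimpleGraph (Fin n) | F.Free G ∧ ¬ G.Colorable (p + 1)}.ncard +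
          {G : SimpleGraph (Fin n) | G.Colorable (p + 1) ∧ ¬ P n G}.ncard := by
      have h6 : {G : SimpleGraph (Fin n) | F.Free G ∧ ¬ P n G} ⊆
          {G : SimpleGraph (Fin n) | F.Free G ∧ ¬ G.Colorable (p + 1)} ∪
            {G : SimpleGraph (Fin n) | G.Colorable (p + 1) ∧ ¬ P n G} := by
        rintro G ⟨h7, h8⟩
        by_cases h9 : G.Colorable (p + 1)
        · exact Or.inr ⟨h9, h8⟩
        · exact Or.inl ⟨h7, h9⟩
      exact_mod_cast (Set.ncard_le_ncard h6 (Set.toFinite _)).trans (Set.ncard_union_le _ _)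
    rw [hd] at h1
    rw [hco] at h1 hle
    rw [hff] at hle
    nlinarith
  · have h5 : ({G : SimpleGraph (Fin n) | F.Free Gᶜ ∧ ¬ P n G}.ncard : ℝ) ≤
        {G : SimpleGraph (Fin n) | F.Free Gᶜ ∧ ¬ Gᶜ.Colorable (p + 1)}.ncard +
          {G : SimpleGraph (Fin n) | Gᶜ.Colorable (p + 1) ∧ ¬ P n G}.ncard := by
      have h6 : {G : SimpleGraph (Fin n) | F.Free Gᶜ ∧ ¬ P n G} ⊆
          {G : SimpleGraph (Fin n) | F.Free Gᶜ ∧ ¬ Gᶜ.Colorable (p + 1)} ∪
            {G : SimpleGraph (Fin n) | Gᶜ.Colorable (p + 1) ∧ ¬ P n G} := by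
        rintro G ⟨h7, h8⟩
        by_cases h9 : Gᶜ.Colorable (p + 1)
        · exact Or.inr ⟨h9, h8⟩
        · exact Or.inl ⟨h7, h9⟩
      exact_mod_cast (Set.ncard_le_ncard h6 (Set.toFinite _)).trans (Set.ncard_union_le _ _)
    rw [hcd] at h5
    rw [hcc] at h4
    rw [hcf]
    rw [hd] at h1
    rw [hco] at h1 hle
    rw [hff] at hle
    nlinarith

/-- the complete graph has a critical edge -/
theorem top_critical (r : ℕ) (hr : 1 ≤ r) : ¬ (⊤ : SimpleGraph (Fin (r + 1))).Colorable r ∧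
    ∃ e ∈ (⊤ : SimpleGraph (Fin (r + 1))).edgeSet,
      ((⊤ : SimpleGraph (Fin (r + 1))).deleteEdges {e}).Colorable r := by
  constructor
  · intro h
    have h1 := h.chromaticNumber_le
    rw [SimpleGraph.chromaticNumber_top, Fintype.card_fin] at h1
    have h2 : r + 1 ≤ r := by exact_mod_cast h1
    omega
  · refine ⟨s(⟨0, by omega⟩, ⟨1, by omega⟩), ?_, ?_⟩
    · rw [SimpleGraph.mem_edgeSet, SimpleGraph.top_adj]
      intro h
      rw [Fin.mk.injEq] at h
      omega
    · refine ⟨SimpleGraph.Coloring.mk (fun v => (⟨(v : ℕ) - 1, by have := v.2; omega⟩ : Fin r))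
        (fun {u v} huv he => ?_)⟩
      rw [SimpleGraph.deleteEdges_adj, SimpleGraph.top_adj] at huv
      obtain ⟨h1, h2⟩ := huv
      rw [Fin.mk.injEq] at he
      apply h2
      have h3 : (u : ℕ) ≠ v := fun h => h1 (Fin.ext h)
      rw [Set.mem_singleton_iff, Sym2.eq_iff]
      rcases Nat.lt_or_gt_of_ne h3 with h4 | h4
      · exact Or.inl ⟨Fin.ext (by show (u : ℕ) = 0; omega), Fin.ext (by show (v : ℕ) = 1; omega)⟩
      · exact Or.inr ⟨Fin.ext (by show (u : ℕ) = 1; omega), Fin.ext (by show (v : ℕ) = 0; omega)⟩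

end Pool.Agent.Q6.PS
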