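import Pool.Agent.Q6.PS.Struct

/-!
# Finding blow-ups in sets of vertices, and graphs with a critical edge
-/

set_option autoImplicit false
set_option maxHeartbeats 400000

namespace Pool.Agent.Q6.PS

open Finset

variable {V : Type} [Fintype V] [DecidableEq V]

theorem pigeon (G : SimpleGraph V) (j a t : ℕ) (W : Fin j → Finset V) (hW : IsBlow G W a)
    (S : Finset V) (h : t * 2 ^ (j * a) < (S ∩ Full G W t).card) :
    ∃ (Z : Finset V) (W' : Fin j → Finset V), Z.card = t ∧ IsBlow G W' t ∧ Z ⊆ S ∧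
      (∀ i, W' i ⊆ W i) ∧ ∀ z ∈ Z, ∀ i, ∀ y ∈ W' i, G.Adj z y := by
  classical
  set U : Finset V := univ.biUnion W with hU
  have hUc : U.card ≤ j * a := by
    refine Finset.card_biUnion_le.trans (le_of_eq ?_)
    rw [Finset.sum_congr rfl (fun i _ => hW.1 i), Finset.sum_const, Finset.card_univ,
      Fintype.card_fin, smul_eq_mul]
  have hsub : ∀ i, W i ⊆ U := fun i => Finset.subset_biUnion_of_mem W (mem_univ i)
  have h1 : U.powerset.card * t < (S ∩ Full G W t).card := by
    refine lt_of_le_of_lt ?_ h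
    rw [Finset.card_powerset, mul_comm]
    exact Nat.mul_le_mul_left _ (Nat.pow_le_pow_right (by norm_num) hUc)
  obtain ⟨R, -, hR⟩ := Finset.exists_lt_card_fiber_of_mul_lt_card_of_maps_to
    (f := fun z => nb G z U) (t := U.powerset)
    (fun z _ => Finset.mem_powerset.2 (Finset.filter_subset _ _)) h1
  set Fb := (S ∩ Full G W t).filter (fun z => nb G z U = R) with hFb
  obtain ⟨Z, hZF, hZc⟩ := Finset.exists_subset_card_eq hR.le
  have hne : Fb.Nonempty := by
    rw [← Finset.card_pos]
    omega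
  obtain ⟨z0, hz0⟩ := hne
  have hFbm : ∀ z ∈ Fb, z ∈ S ∧ z ∈ Full G W t ∧ nb G z U = R := by
    intro z hz
    rw [hFb, mem_filter, mem_inter] at hz
    exact ⟨hz.1.1, hz.1.2, hz.2⟩
  have hRW : ∀ i, t ≤ (R ∩ W i).card := by
    intro i
    have h2 := (hFbm z0 hz0).2.1
    rw [mem_Full] at h2
    refine (h2 i).trans (Finset.card_le_card ?_)
    intro y hy
    rw [mem_nb] at hy
    rw [mem_inter, ← (hFbm z0 hz0).2.2, mem_nb]
    exact ⟨⟨hsub i hy.1, hy.2⟩, hy.1⟩
  have hch := fun i => Finset.exists_subset_card_eq (hRW i)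
  choose W'' hW'' hWc using hch
  refine ⟨Z, W'', hZc, ⟨hWc, fun i k hik u hu v hv => hW.2 i k hik u
    (Finset.mem_inter.1 (hW'' i hu)).2 v (Finset.mem_inter.1 (hW'' k hv)).2⟩,
    fun z hz => (hFbm z (hZF hz)).1, fun i y hy => (Finset.mem_inter.1 (hW'' i hy)).2, ?_⟩
  intro z hz i y hy
  have h3 := (Finset.mem_inter.1 (hW'' i hy)).1
  rw [← (hFbm z (hZF hz)).2.2, mem_nb] at h3
  exact h3.2

theorem pigeon_cons (G : SimpleGraph V) (j a t : ℕ) (W : Fin j → Finset V) (hW : IsBlow G W a)
    (S : Finset V) (hS : ∀ i, W i ⊆ S) (h : t * 2 ^ (j * a) < (S ∩ Full G W t).card) :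
    ∃ W' : Fin (j + 1) → Finset V, IsBlow G W' t ∧ ∀ i, W' i ⊆ S := by
  obtain ⟨Z, W'', hZc, hW'', hZS, hWW, hadj⟩ := pigeon G j a t W hW S h
  refine ⟨Fin.cons Z W'', ⟨?_, ?_⟩, ?_⟩
  · intro i
    refine Fin.cases ?_ (fun i => ?_) i
    · rw [Fin.cons_zero]
      exact hZc
    · rw [Fin.cons_succ]
      exact hW''.1 i
  · intro i k
    refine Fin.cases ?_ (fun i => ?_) i
    · refine Fin.cases (fun h => absurd rfl h) (fun k => ?_) k
      intro _ u hu v hv
      rw [Fin.cons_zero] at hu
      rw [Fin.cons_succ] at hv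
      exact hadj u hu k v hv
    · refine Fin.cases ?_ (fun k => ?_) k
      · intro _ u hu v hv
        rw [Fin.cons_zero] at hv
        rw [Fin.cons_succ] at hu
        exact (hadj v hv i u hu).symm
      · intro hik u hu v hv
        rw [Fin.cons_succ] at hu hv
        exact hW''.2 i k (fun h => hik (by rw [h])) u hu v hv
  · intro i
    refine Fin.cases ?_ (fun i => ?_) i
    · rw [Fin.cons_zero]
      exact hZS
    · rw [Fin.cons_succ]
      exact (hWW i).trans (hS i)

theorem chain (G : SimpleGraph V) (σ : ℕ → ℕ) (S : Finset V) (k : ℕ) :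
    (∃ W : Fin k → Finset V, IsBlow G W (σ k) ∧ ∀ i, W i ⊆ S) ∨
    ∃ j < k, ∃ W : Fin j → Finset V, IsBlow G W (σ j) ∧ (∀ i, W i ⊆ S) ∧
      (S ∩ Full G W (σ (j + 1))).card ≤ σ (j + 1) * 2 ^ (j * σ j) := by
  induction k with
  | zero => exact Or.inl ⟨fun _ => ∅, ⟨fun a => a.elim0, fun a => a.elim0⟩, fun a => a.elim0⟩
  | succ k ih =>
    rcases ih with ⟨W, hW, hWS⟩ | ⟨j, hj, h⟩
    · by_cases h : (S ∩ Full G W (σ (k + 1))).card ≤ σ (k + 1) * 2 ^ (k * σ k)
      · exact Or.inr ⟨k, Nat.lt_succ_self k, W, hW, hWS, h⟩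
      · exact Or.inl (pigeon_cons G k (σ k) (σ (k + 1)) W hW S hWS (not_le.1 h))
    · exact Or.inr ⟨j, Nat.lt_succ_of_lt hj, h⟩

/-- A graph with a critical edge is contained in a complete multipartite graph with large classes
plus one edge in a class. -/
theorem embed {A : Type} [Fintype A] (F : SimpleGraph A) (p : ℕ) (a b : A) (hab : F.Adj a b)
    (hcrit : (F.deleteEdges {s(a, b)}).Colorable (p + 1)) (hF : ¬ F.Colorable (p + 1))
    (G : SimpleGraph V) (x y : V) (hxy : G.Adj x y) (Z : Finset V) (W : Fin p → Finset V)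
    (hZ : Fintype.card A ≤ Z.card) (hW : ∀ i, Fintype.card A ≤ (W i).card)
    (hZW : ∀ z ∈ Z, ∀ i, ∀ w ∈ W i, G.Adj z w)
    (hWW : ∀ i k, i ≠ k → ∀ u ∈ W i, ∀ v ∈ W k, G.Adj u v)
    (hx : ∀ i, ∀ w ∈ W i, G.Adj x w) (hy : ∀ i, ∀ w ∈ W i, G.Adj y w) (hxZ : x ∉ Z)
    (hyZ : y ∉ Z) : ¬ F.Free G := by
  classical
  obtain ⟨C⟩ := hcrit
  have hCab : C a = C b := by
    by_contra hne
    apply hF
    refine ⟨SimpleGraph.Coloring.mk (fun v => C v) (fun {u v} huv he => ?_)⟩
    by_cases h : s(u, v) = s(a, b)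
    · rw [Sym2.eq_iff] at h
      rcases h with ⟨rfl, rfl⟩ | ⟨rfl, rfl⟩
      · exact hne he
      · exact hne he.symm
    · refine C.valid (v := u) (w := v) ?_ he
      rw [SimpleGraph.deleteEdges_adj]
      exact ⟨huv, h⟩
  obtain ⟨c, hc⟩ : ∃ c : A → Fin (p + 1), c = fun v => Equiv.swap (C a) 0 (C v) := ⟨_, rfl⟩
  have hca : c a = 0 := by
    rw [hc]
    exact Equiv.swap_apply_left _ _
  have hcb : c b = 0 := by
    rw [hc]
    show Equiv.swap (C a) 0 (C b) = 0
    rw [← hCab]
    exact Equiv.swap_apply_left _ _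
  have hcv : ∀ u v, F.Adj u v → s(u, v) ≠ s(a, b) → c u ≠ c v := by
    intro u v huv h he
    rw [hc] at he
    have he' : C u = C v := (Equiv.swap (C a) 0).injective he
    refine C.valid (v := u) (w := v) ?_ he'
    rw [SimpleGraph.deleteEdges_adj]
    exact ⟨huv, h⟩
  obtain ⟨ι0, hι0⟩ := Function.Embedding.exists_of_card_le_finset hZ
  have hch := fun i => Function.Embedding.exists_of_card_le_finset (hW i)
  choose ι hι using hch
  obtain ⟨K, hK⟩ : ∃ K : Fin (p + 1) → (A ↪ V), K = Fin.cons ι0 ι := ⟨_, rfl⟩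
  have hK0 : ∀ v, K 0 v ∈ Z := by
    intro v
    rw [hK, Fin.cons_zero]
    exact hι0 (Set.mem_range_self v)
  have hKs : ∀ i v, K (Fin.succ i) v ∈ W i := by
    intro i v
    rw [hK, Fin.cons_succ]
    exact hι i (Set.mem_range_self v)
  have hKadj : ∀ k l, k ≠ l → ∀ u v, G.Adj (K k u) (K l v) := by
    intro k l
    refine Fin.cases ?_ (fun i => ?_) k
    · refine Fin.cases (fun h => absurd rfl h) (fun i => ?_) l
      intro _ u v
      exact hZW _ (hK0 u) i _ (hKs i v)
    · refine Fin.cases ?_ (fun i' => ?_) l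
      · intro _ u v
        exact (hZW _ (hK0 v) i _ (hKs i u)).symm
      · intro hik u v
        exact hWW i i' (fun h => hik (by rw [h])) _ (hKs i u) _ (hKs i' v)
  have hxK : ∀ k, k ≠ 0 → ∀ v, G.Adj x (K k v) ∧ G.Adj y (K k v) := by
    intro k
    refine Fin.cases (fun h => absurd rfl h) (fun i => ?_) k
    intro _ v
    exact ⟨hx i _ (hKs i v), hy i _ (hKs i v)⟩
  have hxKne : ∀ k v, x ≠ K k v := by
    intro k v he
    by_cases hk : k = 0
    · rw [hk] at he
      exact hxZ (he ▸ hK0 v)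
    · exact (hxK k hk v).1.ne he
  have hyKne : ∀ k v, y ≠ K k v := by
    intro k v he
    by_cases hk : k = 0
    · rw [hk] at he
      exact hyZ (he ▸ hK0 v)
    · exact (hxK k hk v).2.ne he
  have hab' : a ≠ b := hab.ne
  obtain ⟨φ, hφ⟩ : ∃ φ : A → V, φ = fun v => if v = a then x else if v = b then y else
    K (c v) v := ⟨_, rfl⟩
  have φa : φ a = x := by rw [hφ]; simp
  have φb : φ b = y := by rw [hφ]; simp [hab'.symm]
  have φv : ∀ v, v ≠ a → v ≠ b → φ v = K (c v) v := by
    intro v h1 h2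
    rw [hφ]
    simp [h1, h2]
  have hinj : Function.Injective φ := by
    intro u v he
    by_cases hua : u = a
    · by_cases hva : v = a
      · rw [hua, hva]
      · exfalso
        by_cases hvb : v = b
        · rw [hua, hvb, φa, φb] at he
          exact hxy.ne he
        · rw [hua, φa, φv v hva hvb] at he
          exact hxKne _ _ he
    · by_cases hub : u = b
      · by_cases hvb : v = b
        · rw [hub, hvb]
        · exfalso
          by_cases hva : v = a
          · rw [hub, hva, φa, φb] at he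
            exact hxy.ne he.symm
          · rw [hub, φb, φv v hva hvb] at he
            exact hyKne _ _ he
      · by_cases hva : v = a
        · exfalso
          rw [hva, φa, φv u hua hub] at he
          exact hxKne _ _ he.symm
        · by_cases hvb : v = b
          · exfalso
            rw [hvb, φb, φv u hua hub] at he
            exact hyKne _ _ he.symm
          · rw [φv u hua hub, φv v hva hvb] at he
            by_cases hcc : c u = c v
            · rw [hcc] at he
              exact (K (c v)).injective he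
            · exact absurd he (hKadj _ _ hcc u v).ne
  have hxφ : ∀ v, c v ≠ 0 → G.Adj x (φ v) ∧ G.Adj y (φ v) := by
    intro v hv
    have h1 : v ≠ a := fun h => hv (h ▸ hca)
    have h2 : v ≠ b := fun h => hv (h ▸ hcb)
    rw [φv v h1 h2]
    exact hxK _ hv v
  have hadj : ∀ u v, F.Adj u v → G.Adj (φ u) (φ v) := by
    intro u v huv
    by_cases h : s(u, v) = s(a, b)
    · rw [Sym2.eq_iff] at h
      rcases h with ⟨rfl, rfl⟩ | ⟨rfl, rfl⟩
      · rw [φa, φb]
        exact hxy
      · rw [φa, φb]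
        exact hxy.symm
    · have hne := hcv u v huv h
      by_cases hua : u = a
      · rw [hua, hca] at hne
        rw [hua, φa]
        exact (hxφ v hne.symm).1
      · by_cases hub : u = b
        · rw [hub, hcb] at hne
          rw [hub, φb]
          exact (hxφ v hne.symm).2
        · by_cases hva : v = a
          · rw [hva, hca] at hne
            rw [hva, φa]
            exact (hxφ u hne).1.symm
          · by_cases hvb : v = b
            · rw [hvb, hcb] at hne
              rw [hvb, φb]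
              exact (hxφ u hne).2.symm
            · rw [φv u hua hub, φv v hva hvb]
              exact hKadj _ _ hne u v
  intro hfree
  exact hfree ⟨⟨⟨φ, fun {u v} huv => hadj u v huv⟩, hinj⟩⟩

end Pool.Agent.Q6.PS
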