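import Pool.Agent.Q6.KPR.Base

/-!
# Three classes of graphs of a hereditary class
-/

set_option autoImplicit false
set_option maxHeartbeats 400000

namespace Pool.Agent.Q6.PS

open Finset
open Pool.Agent.Q6.HP (enum enum_mem exists_enum)
open Pool.Agent.Q6.EKR (ext_fiber adj_of_fiber)
open Pool.Agent.Q6.KPR (few_subsets)

section defs

variable {V : Type} [Fintype V] [DecidableEq V]

open Classical in
/-- the neighbours of `z` in `A` -/
noncomputable def nb (G : SimpleGraph V) (z : V) (A : Finset V) : Finset V :=
  A.filter (fun y => G.Adj z y)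

theorem mem_nb (G : SimpleGraph V) (z : V) (A : Finset V) (y : V) :
    y ∈ nb G z A ↔ y ∈ A ∧ G.Adj z y := by
  simp [nb]

/-- `j` sets of `s` vertices with all edges between them -/
def IsBlow (G : SimpleGraph V) {j : ℕ} (Y : Fin j → Finset V) (s : ℕ) : Prop :=
  (∀ a, (Y a).card = s) ∧ ∀ a b, a ≠ b → ∀ u ∈ Y a, ∀ v ∈ Y b, G.Adj u v

open Classical in
/-- the vertices with at least `t` neighbours in each of the sets -/
noncomputable def Full (G : SimpleGraph V) {j : ℕ} (Y : Fin j → Finset V) (t : ℕ) : Finset V :=
  univ.filter (fun z => ∀ a, t ≤ (nb G z (Y a)).card)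

theorem mem_Full (G : SimpleGraph V) {j : ℕ} (Y : Fin j → Finset V) (t : ℕ) (z : V) :
    z ∈ Full G Y t ↔ ∀ a, t ≤ (nb G z (Y a)).card := by
  simp [Full]

end defs

/-- A sequence of sets of graphs on `Fin n` which is closed under induced subgraphs. -/
def Hered (X : (n : ℕ) → Finset (SimpleGraph (Fin n))) : Prop :=
  ∀ (m n : ℕ) (φ : Fin m ↪ Fin n) (G : SimpleGraph (Fin n)), G ∈ X n → G.comap φ ∈ X m

variable {n : ℕ}

open Classical in
theorem fiber_bound (X : (n : ℕ) → Finset (SimpleGraph (Fin n))) (hX : Hered X)
    (W : Finset (Fin n)) (Γ : Finset (SimpleGraph (Fin n))) (hΓ : ∀ G ∈ Γ, G ∈ X n) (M : ℝ)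
    (hM : ∀ H, ((Γ.filter (fun G => G.comap (enum W) = H)).card : ℝ) ≤ M) :
    (Γ.card : ℝ) ≤ (X W.card).card * M := by
  have h1 : Γ.card = ∑ H ∈ X W.card, (Γ.filter (fun G => G.comap (enum W) = H)).card := by
    apply Finset.card_eq_sum_card_fiberwise
    intro G hG
    rw [mem_coe]
    exact hX _ _ (enum W) G (hΓ G hG)
  rw [h1]
  push_cast
  calc ∑ H ∈ X W.card, ((Γ.filter (fun G => G.comap (enum W) = H)).card : ℝ) ≤
        ∑ _H ∈ X W.card, M := Finset.sum_le_sum (fun H _ => hM H)
    _ = _ := by rw [Finset.sum_const, nsmul_eq_mul]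

/-- whether a vertex of `W` is in `Full` depends only on the graph on `W`, if `Y` is in `W` -/
theorem full_fiber (W : Finset (Fin n)) (G G' : SimpleGraph (Fin n))
    (h : G.comap (enum W) = G'.comap (enum W)) {j : ℕ} (Y : Fin j → Finset (Fin n)) (t : ℕ)
    (hY : ∀ a, Y a ⊆ W) (z : Fin n) (hz : z ∈ W) : z ∈ Full G Y t ↔ z ∈ Full G' Y t := by
  rw [mem_Full, mem_Full]
  refine forall_congr' fun a => ?_
  have h1 : nb G z (Y a) = nb G' z (Y a) := by
    ext y
    rw [mem_nb, mem_nb]
    constructor
    · rintro ⟨h2, h3⟩
      exact ⟨h2, (adj_of_fiber W G G' h z y hz (hY a h2)).1 h3⟩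
    · rintro ⟨h2, h3⟩
      exact ⟨h2, (adj_of_fiber W G G' h z y hz (hY a h2)).2 h3⟩
  rw [h1]

open Classical in
/-- Few graphs have a blow-up with few vertices with many neighbours in all its classes. -/
theorem classA (X : (n : ℕ) → Finset (SimpleGraph (Fin n))) (hX : Hered X) (j s t m : ℕ) (Y : Fin j → Finset (Fin n)) (hY : ∀ a, (Y a).card = s)
    (hd : ∀ a b, a ≠ b → Disjoint (Y a) (Y b)) (hj : 1 ≤ j) :
    (((X n).filter (fun G => (Full G Y t).card ≤ m)).card : ℝ) ≤
      (X (n - j * s)).card *
        (2 ^ n * (j * (s + 1) ^ t * 2 ^ ((j - 1) * s)) ^ n * 2 ^ (s * m)) := by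
  set U : Finset (Fin n) := univ.biUnion Y with hU
  have hUc : U.card = j * s := by
    rw [hU, Finset.card_biUnion (fun a _ b _ hab => hd a b hab), Finset.sum_congr rfl
      (fun a _ => hY a), Finset.sum_const, Finset.card_univ, Fintype.card_fin, smul_eq_mul]
  have hsub : ∀ a, Y a ⊆ U := fun a => Finset.subset_biUnion_of_mem Y (mem_univ a)
  set T : ℕ := j * (s + 1) ^ t * 2 ^ ((j - 1) * s) with hT
  set T0 : Finset (Finset (Fin n)) := U.powerset.filter (fun S => ∃ a, (S ∩ Y a).card < t) with hT0
  have hT0c : T0.card ≤ T := by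
    have h1 : T0 ⊆ (univ : Finset (Fin j)).biUnion (fun a =>
        U.powerset.filter (fun S => (S ∩ Y a).card < t)) := by
      intro S hS
      rw [hT0, mem_filter] at hS
      obtain ⟨h2, a, ha⟩ := hS
      rw [mem_biUnion]
      exact ⟨a, mem_univ _, mem_filter.2 ⟨h2, ha⟩⟩
    have h2 : ∀ a ∈ (univ : Finset (Fin j)),
        (U.powerset.filter (fun S => (S ∩ Y a).card < t)).card ≤
          (s + 1) ^ t * 2 ^ ((j - 1) * s) := by
      intro a _
      have h3 : (U.powerset.filter (fun S => (S ∩ Y a).card < t)).card ≤
          (((Y a).powerset.filter (fun S => S.card ≤ t)) ×ˢ (U \ Y a).powerset).card := by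
        apply Finset.card_le_card_of_injOn (fun S => (S ∩ Y a, S \ Y a))
        · intro S hS
          rw [mem_coe, mem_filter, mem_powerset] at hS
          rw [mem_coe, mem_product, mem_filter, mem_powerset, mem_powerset]
          exact ⟨⟨Finset.inter_subset_right, hS.2.le⟩,
            Finset.sdiff_subset_sdiff hS.1 (subset_refl _)⟩
        · intro S _ S' _ he
          simp only [Prod.mk.injEq] at he
          rw [← Finset.sdiff_union_inter S (Y a), ← Finset.sdiff_union_inter S' (Y a), he.1, he.2]
      refine h3.trans ?_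
      rw [Finset.card_product, Finset.card_powerset]
      have h4 := few_subsets (Y a) t
      rw [hY a] at h4
      have h5 : (U \ Y a).card = (j - 1) * s := by
        rw [Finset.card_sdiff_of_subset (hsub a), hUc, hY a, Nat.sub_mul, one_mul]
      rw [h5]
      exact Nat.mul_le_mul_right _ h4
    refine (Finset.card_le_card h1).trans (Finset.card_biUnion_le.trans
      ((Finset.sum_le_sum h2).trans (le_of_eq ?_)))
    rw [Finset.sum_const, Finset.card_univ, Fintype.card_fin, smul_eq_mul, hT, mul_assoc]
  have hT1 : 2 ^ (j * s) ≤ T * 2 ^ s := by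
    have h1 : 2 ^ (j * s) = 2 ^ ((j - 1) * s) * 2 ^ s := by
      rw [← pow_add]
      congr 1
      obtain ⟨p, rfl⟩ : ∃ p, j = p + 1 := ⟨j - 1, by omega⟩
      simp only [Nat.add_sub_cancel]
      ring
    rw [h1]
    apply Nat.mul_le_mul_right
    rw [hT]
    apply Nat.le_mul_of_pos_left
    positivity
  have hW : (univ \ U : Finset (Fin n)).card = n - j * s := by
    rw [← Finset.compl_eq_univ_sdiff, Finset.card_compl, Fintype.card_fin, hUc]
  have h := fiber_bound X hX (univ \ U) ((X n).filter (fun G => (Full G Y t).card ≤ m))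
    (fun G hG => (Finset.mem_filter.1 hG).1)
    (2 ^ n * (j * (s + 1) ^ t * 2 ^ ((j - 1) * s)) ^ n * 2 ^ (s * m)) ?_
  · rwa [hW] at h
  · intro H
    set Γ := ((X n).filter (fun G => (Full G Y t).card ≤ m)).filter
      (fun G => G.comap (enum (univ \ U)) = H) with hΓ
    have h1 : Γ ⊆ ((univ : Finset (Finset (Fin n))).filter (fun R => R.card ≤ m)).biUnion
        (fun R => Γ.filter (fun G => Full G Y t = R)) := by
      intro G hG
      rw [Finset.mem_biUnion]
      refine ⟨Full G Y t, ?_, ?_⟩
      · rw [hΓ, mem_filter, mem_filter] at hG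
        exact Finset.mem_filter.2 ⟨mem_univ _, hG.1.2⟩
      · exact Finset.mem_filter.2 ⟨hG, rfl⟩
    have h2 : ∀ R ∈ (univ : Finset (Finset (Fin n))).filter (fun R => R.card ≤ m),
        (Γ.filter (fun G => Full G Y t = R)).card ≤ T ^ n * 2 ^ (s * m) := by
      intro R hR
      rw [mem_filter] at hR
      have h3 : (Γ.filter (fun G => Full G Y t = R)).card ≤
          (Fintype.piFinset (fun z : Fin n => if z ∈ R then U.powerset else T0)).card := by
        apply Finset.card_le_card_of_injOn (fun G => fun z => nb G z U)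
        · intro G hG
          rw [mem_coe, mem_filter] at hG
          rw [mem_coe, Fintype.mem_piFinset]
          intro z
          have hzU : nb G z U ⊆ U := Finset.filter_subset _ _
          by_cases hz : z ∈ R
          · simp only [hz, if_true, mem_powerset]
            exact hzU
          · simp only [hz, if_false]
            rw [hT0, mem_filter, mem_powerset]
            refine ⟨hzU, ?_⟩
            rw [← hG.2, mem_Full] at hz
            push Not at hz
            obtain ⟨a, ha⟩ := hz
            refine ⟨a, ?_⟩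
            have h4 : nb G z U ∩ Y a = nb G z (Y a) := by
              ext y
              rw [mem_inter, mem_nb, mem_nb]
              exact ⟨fun h => ⟨h.2, h.1.2⟩, fun h => ⟨⟨hsub a h.1, h.2⟩, h.1⟩⟩
            rw [h4]
            exact ha
        · intro G hG G' hG' he
          rw [mem_coe, mem_filter, hΓ, mem_filter] at hG hG'
          refine ext_fiber (univ \ U) G G' (hG.1.2.trans hG'.1.2.symm) (fun u hu z => ?_)
          have hu' : u ∈ U := by
            by_contra hcon
            exact hu (Finset.mem_sdiff.2 ⟨mem_univ _, hcon⟩)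
          have h4 := congrArg (fun F => u ∈ F z) he
          simp only [mem_nb, hu', true_and, eq_iff_iff] at h4
          rw [G.adj_comm, G'.adj_comm]
          exact h4
      refine h3.trans ?_
      rw [Fintype.card_piFinset]
      have h4 : ∀ z ∈ (univ : Finset (Fin n)), (if z ∈ R then U.powerset else T0).card ≤
          T * (if z ∈ R then 2 ^ s else 1) := by
        intro z _
        by_cases hz : z ∈ R
        · simp only [hz, if_true]
          rw [Finset.card_powerset, hUc]
          exact hT1
        · simp only [hz, if_false, mul_one]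
          exact hT0c
      refine (Finset.prod_le_prod' h4).trans ?_
      rw [Finset.prod_mul_distrib, Finset.prod_const, Finset.card_univ, Fintype.card_fin,
        Finset.prod_ite_mem, Finset.prod_const, ← pow_mul, Finset.univ_inter]
      apply Nat.mul_le_mul_left
      exact Nat.pow_le_pow_right (by norm_num) (Nat.mul_le_mul_left _ hR.2)
    have h5 : Γ.card ≤ 2 ^ n * (T ^ n * 2 ^ (s * m)) := by
      refine (Finset.card_le_card h1).trans (Finset.card_biUnion_le.trans ?_)
      refine (Finset.sum_le_sum h2).trans ?_
      rw [Finset.sum_const, smul_eq_mul]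
      apply Nat.mul_le_mul_right
      refine (Finset.card_le_univ _).trans ?_
      rw [Fintype.card_finset, Fintype.card_fin]
    have h6 : (Γ.card : ℝ) ≤ 2 ^ n * ((T : ℝ) ^ n * 2 ^ (s * m)) := by exact_mod_cast h5
    refine h6.trans (le_of_eq ?_)
    rw [hT]
    push_cast
    ring

open Classical in
/-- Few graphs have a vertex with few neighbours in the large set of the vertices with many
neighbours in all classes of a blow-up. -/
theorem classB (X : (n : ℕ) → Finset (SimpleGraph (Fin n))) (hX : Hered X) (j t D m : ℕ)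
    (x : Fin n) (Y : Fin j → Finset (Fin n)) (hx : ∀ a, x ∉ Y a) :
    (((X n).filter (fun G => ((Full G Y t).filter (fun z => G.Adj x z)).card ≤ D ∧
      m + 1 ≤ (Full G Y t).card)).card : ℝ) ≤
      (X (n - 1)).card * ((n + 1) ^ D * 2 ^ (n - m)) := by
  have hW : (univ.erase x : Finset (Fin n)).card = n - 1 := by
    rw [Finset.card_erase_of_mem (mem_univ x), Finset.card_univ, Fintype.card_fin]
  have h := fiber_bound X hX (univ.erase x) ((X n).filter
    (fun G => ((Full G Y t).filter (fun z => G.Adj x z)).card ≤ D ∧ m + 1 ≤ (Full G Y t).card))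
    (fun G hG => (Finset.mem_filter.1 hG).1) ((n + 1) ^ D * 2 ^ (n - m)) ?_
  · rwa [hW] at h
  · intro H
    set Γ := ((X n).filter (fun G => ((Full G Y t).filter (fun z => G.Adj x z)).card ≤ D ∧
      m + 1 ≤ (Full G Y t).card)).filter (fun G => G.comap (enum (univ.erase x)) = H) with hΓ
    rcases Finset.eq_empty_or_nonempty Γ with he | ⟨G0, hG0⟩
    · rw [he]
      simp only [Finset.card_empty, Nat.cast_zero]
      positivity
    · set F0 : Finset (Fin n) := (Full G0 Y t).erase x with hF0
      have hmem : ∀ G ∈ Γ, ((Full G Y t).filter (fun z => G.Adj x z)).card ≤ D ∧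
          m + 1 ≤ (Full G Y t).card ∧ G.comap (enum (univ.erase x)) = H := by
        intro G hG
        rw [hΓ, mem_filter, mem_filter] at hG
        exact ⟨hG.1.2.1, hG.1.2.2, hG.2⟩
      have hYW : ∀ a, Y a ⊆ univ.erase x := by
        intro a y hy
        refine Finset.mem_erase.2 ⟨?_, mem_univ _⟩
        rintro rfl
        exact hx a hy
      have hF : ∀ G ∈ Γ, ∀ z, z ≠ x → (z ∈ Full G Y t ↔ z ∈ F0) := by
        intro G hG z hz
        rw [hF0, mem_erase, full_fiber (univ.erase x) G G0
          ((hmem G hG).2.2.trans (hmem G0 hG0).2.2.symm) Y t hYW z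
          (Finset.mem_erase.2 ⟨hz, mem_univ _⟩)]
        exact ⟨fun h => ⟨hz, h⟩, fun h => h.2⟩
      have hF0c : m ≤ F0.card := by
        have h1 := (hmem G0 hG0).2.1
        have h2 := Finset.pred_card_le_card_erase (s := Full G0 Y t) (a := x)
        rw [hF0]
        omega
      have h3 : Γ.card ≤ ((F0.powerset.filter (fun S => S.card ≤ D)) ×ˢ
          (univ \ F0).powerset).card := by
        apply Finset.card_le_card_of_injOn
          (fun G => (F0.filter (fun z => G.Adj x z), (univ \ F0).filter (fun z => G.Adj x z)))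
        · intro G hG
          rw [mem_coe] at hG
          rw [mem_coe, mem_product, mem_filter, mem_powerset, mem_powerset]
          refine ⟨⟨Finset.filter_subset _ _, ?_⟩, Finset.filter_subset _ _⟩
          refine le_trans (Finset.card_le_card ?_) (hmem G hG).1
          intro z hz
          rw [mem_filter] at hz ⊢
          exact ⟨(hF G hG z hz.2.ne').2 hz.1, hz.2⟩
        · intro G hG G' hG' he
          rw [mem_coe] at hG hG'
          simp only [Prod.mk.injEq] at he
          refine ext_fiber (univ.erase x) G G'
            ((hmem G hG).2.2.trans (hmem G' hG').2.2.symm) (fun u hu z => ?_)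
          have hu' : u = x := by
            by_contra hcon
            exact hu (Finset.mem_erase.2 ⟨hcon, mem_univ _⟩)
          rw [hu']
          by_cases hz : z ∈ F0
          · have h4 := congrArg (fun X => z ∈ X) he.1
            simpa [hz] using h4
          · have h4 := congrArg (fun X => z ∈ X) he.2
            simpa [hz] using h4
      rw [Finset.card_product, Finset.card_powerset] at h3
      have h4 : (F0.powerset.filter (fun S => S.card ≤ D)).card ≤ (n + 1) ^ D := by
        refine (few_subsets F0 D).trans (Nat.pow_le_pow_left ?_ _)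
        have := Finset.card_le_univ F0
        rw [Fintype.card_fin] at this
        omega
      have h5 : (univ \ F0).card ≤ n - m := by
        rw [← Finset.compl_eq_univ_sdiff, Finset.card_compl, Fintype.card_fin]
        omega
      have h6 : Γ.card ≤ (n + 1) ^ D * 2 ^ (n - m) :=
        h3.trans (Nat.mul_le_mul h4 (Nat.pow_le_pow_right (by norm_num) h5))
      exact_mod_cast h6

open Classical in
/-- Few graphs have two vertices `x`, `y` with few common neighbours in the set of the vertices
with many neighbours in all classes of a blow-up, if this set is not mostly covered by the sets of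
vertices few of which are adjacent to `x` and `y`. -/
theorem classC (X : (n : ℕ) → Finset (SimpleGraph (Fin n))) (hX : Hered X)
    (p j τ t D a i : ℕ) (x y : Fin n) (hxy : x ≠ y) (Y Y' : Fin p → Finset (Fin n))
    (W : Fin j → Finset (Fin n)) (hY : ∀ a, x ∉ Y a ∧ y ∉ Y a) (hY' : ∀ a, x ∉ Y' a ∧ y ∉ Y' a)
    (hWx : ∀ a, x ∉ W a ∧ y ∉ W a) :
    (((X n).filter (fun G => ((Full G Y τ).filter (fun z => G.Adj x z)).card ≤ D ∧
      ((Full G Y' τ).filter (fun z => G.Adj y z)).card ≤ D ∧
      ((Full G W t).filter (fun z => G.Adj x z ∧ G.Adj y z)).card ≤ D ∧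
      a + 2 ≤ (Full G Y τ).card ∧ a + 2 ≤ (Full G Y' τ).card ∧
      i + 2 ≤ (Full G W t \ (Full G Y τ ∪ Full G Y' τ)).card)).card : ℝ) ≤
      (X (n - 2)).card * ((n + 1) ^ (D + D + D) *
        (4 ^ n * (1 / 2) ^ (a - D) * (1 / 2) ^ (a - D) * (3 / 4) ^ (i - D))) := by
  set E : Finset (Fin n) := {x, y} with hE
  have hEc : E.card = 2 := Finset.card_pair hxy
  have hW : (univ \ E : Finset (Fin n)).card = n - 2 := by
    rw [← Finset.compl_eq_univ_sdiff, Finset.card_compl, Fintype.card_fin, hEc]
  have h := fiber_bound X hX (univ \ E) ((X n).filter (fun G =>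
      ((Full G Y τ).filter (fun z => G.Adj x z)).card ≤ D ∧
      ((Full G Y' τ).filter (fun z => G.Adj y z)).card ≤ D ∧
      ((Full G W t).filter (fun z => G.Adj x z ∧ G.Adj y z)).card ≤ D ∧
      a + 2 ≤ (Full G Y τ).card ∧ a + 2 ≤ (Full G Y' τ).card ∧
      i + 2 ≤ (Full G W t \ (Full G Y τ ∪ Full G Y' τ)).card))
    (fun G hG => (Finset.mem_filter.1 hG).1)
    ((n + 1) ^ (D + D + D) *
      (4 ^ n * (1 / 2) ^ (a - D) * (1 / 2) ^ (a - D) * (3 / 4) ^ (i - D))) ?_
  · rwa [hW] at h
  · intro H
    set Γ := ((X n).filter (fun G =>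
      ((Full G Y τ).filter (fun z => G.Adj x z)).card ≤ D ∧
      ((Full G Y' τ).filter (fun z => G.Adj y z)).card ≤ D ∧
      ((Full G W t).filter (fun z => G.Adj x z ∧ G.Adj y z)).card ≤ D ∧
      a + 2 ≤ (Full G Y τ).card ∧ a + 2 ≤ (Full G Y' τ).card ∧
      i + 2 ≤ (Full G W t \ (Full G Y τ ∪ Full G Y' τ)).card)).filter
      (fun G => G.comap (enum (univ \ E)) = H) with hΓ
    rcases Finset.eq_empty_or_nonempty Γ with he | ⟨G0, hG0⟩
    · rw [he]
      simp only [Finset.card_empty, Nat.cast_zero]
      positivity
    · have hmem : ∀ G ∈ Γ, ((Full G Y τ).filter (fun z => G.Adj x z)).card ≤ D ∧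
          ((Full G Y' τ).filter (fun z => G.Adj y z)).card ≤ D ∧
          ((Full G W t).filter (fun z => G.Adj x z ∧ G.Adj y z)).card ≤ D ∧
          G.comap (enum (univ \ E)) = H := by
        intro G hG
        rw [hΓ, mem_filter, mem_filter] at hG
        exact ⟨hG.1.2.1, hG.1.2.2.1, hG.1.2.2.2.1, hG.2⟩
      have hWm : ∀ z, z ∈ (univ \ E : Finset (Fin n)) ↔ z ≠ x ∧ z ≠ y := by
        intro z
        simp [hE]
      have hsubW : ∀ {k : ℕ} (Z : Fin k → Finset (Fin n)), (∀ a, x ∉ Z a ∧ y ∉ Z a) →
          ∀ a, Z a ⊆ univ \ E := by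
        intro k Z hZ a z hz
        rw [hWm]
        constructor
        · rintro rfl
          exact (hZ a).1 hz
        · rintro rfl
          exact (hZ a).2 hz
      have hff : ∀ G ∈ Γ, ∀ {k : ℕ} (Z : Fin k → Finset (Fin n)) (t : ℕ),
          (∀ a, x ∉ Z a ∧ y ∉ Z a) → ∀ z, z ∉ E → (z ∈ Full G Z t ↔ z ∈ Full G0 Z t) := by
        intro G hG k Z t hZ z hz
        exact full_fiber (univ \ E) G G0
          ((hmem G hG).2.2.2.trans (hmem G0 hG0).2.2.2.symm) Z t (hsubW Z hZ) z
          (Finset.mem_sdiff.2 ⟨mem_univ _, hz⟩)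
      set A : Finset (Fin n) := Full G0 Y τ \ E with hA
      set B : Finset (Fin n) := Full G0 Y' τ \ E with hB
      set F : Finset (Fin n) := (Full G0 W t \ (Full G0 Y τ ∪ Full G0 Y' τ)) \ E with hF
      have hG0' := hG0
      rw [hΓ, mem_filter, mem_filter] at hG0'
      obtain ⟨⟨-, -, -, -, ha, hb, hi⟩, -⟩ := hG0'
      have hAc : a ≤ A.card := by
        have h1 : (Full G0 Y τ).card - E.card ≤ A.card := Finset.le_card_sdiff E _
        rw [hEc] at h1
        omega
      have hBc : a ≤ B.card := by
        have h1 : (Full G0 Y' τ).card - E.card ≤ B.card := Finset.le_card_sdiff E _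
        rw [hEc] at h1
        omega
      have hFc : i ≤ F.card := by
        have h1 : (Full G0 W t \ (Full G0 Y τ ∪ Full G0 Y' τ)).card - E.card ≤ F.card :=
          Finset.le_card_sdiff E _
        rw [hEc] at h1
        omega
      have hnA : ∀ G ∈ Γ, (A.filter (fun z => G.Adj x z)).card ≤ D := by
        intro G hG
        refine le_trans (Finset.card_le_card ?_) (hmem G hG).1
        intro z hz
        rw [mem_filter] at hz ⊢
        obtain ⟨hz1, hz2⟩ := hz
        rw [hA, Finset.mem_sdiff] at hz1
        exact ⟨(hff G hG Y τ hY z hz1.2).2 hz1.1, hz2⟩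
      have hnB : ∀ G ∈ Γ, (B.filter (fun z => G.Adj y z)).card ≤ D := by
        intro G hG
        refine le_trans (Finset.card_le_card ?_) (hmem G hG).2.1
        intro z hz
        rw [mem_filter] at hz ⊢
        obtain ⟨hz1, hz2⟩ := hz
        rw [hB, Finset.mem_sdiff] at hz1
        exact ⟨(hff G hG Y' τ hY' z hz1.2).2 hz1.1, hz2⟩
      have hnF : ∀ G ∈ Γ, (F.filter (fun z => G.Adj x z ∧ G.Adj y z)).card ≤ D := by
        intro G hG
        refine le_trans (Finset.card_le_card ?_) (hmem G hG).2.2.1
        intro z hz
        rw [mem_filter] at hz ⊢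
        obtain ⟨hz1, hz2⟩ := hz
        rw [hF, Finset.mem_sdiff, Finset.mem_sdiff] at hz1
        exact ⟨(hff G hG W t hWx z hz1.2).2 hz1.1.1, hz2⟩
      set J : Finset (Finset (Fin n) × Finset (Fin n) × Finset (Fin n)) :=
        (A.powerset.filter (fun S => S.card ≤ D)) ×ˢ ((B.powerset.filter (fun S => S.card ≤ D)) ×ˢ
          (F.powerset.filter (fun S => S.card ≤ D))) with hJ
      have h1 : Γ ⊆ J.biUnion (fun R => Γ.filter (fun G => A.filter (fun z => G.Adj x z) = R.1 ∧
          B.filter (fun z => G.Adj y z) = R.2.1 ∧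
          F.filter (fun z => G.Adj x z ∧ G.Adj y z) = R.2.2)) := by
        intro G hG
        rw [Finset.mem_biUnion]
        refine ⟨(A.filter (fun z => G.Adj x z), B.filter (fun z => G.Adj y z),
          F.filter (fun z => G.Adj x z ∧ G.Adj y z)), ?_, ?_⟩
        · rw [hJ, mem_product, mem_product, mem_filter, mem_powerset, mem_filter, mem_powerset,
            mem_filter, mem_powerset]
          exact ⟨⟨Finset.filter_subset _ _, hnA G hG⟩, ⟨Finset.filter_subset _ _, hnB G hG⟩,
            ⟨Finset.filter_subset _ _, hnF G hG⟩⟩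
        · exact Finset.mem_filter.2 ⟨hG, rfl, rfl, rfl⟩
      have h2 : ∀ R ∈ J, ((Γ.filter (fun G => A.filter (fun z => G.Adj x z) = R.1 ∧
          B.filter (fun z => G.Adj y z) = R.2.1 ∧
          F.filter (fun z => G.Adj x z ∧ G.Adj y z) = R.2.2)).card : ℝ) ≤
            4 ^ n * (1 / 2) ^ (a - D) * (1 / 2) ^ (a - D) * (3 / 4) ^ (i - D) := by
        rintro ⟨R1, R2, R⟩ hR
        rw [hJ, mem_product, mem_product, mem_filter, mem_powerset, mem_filter, mem_powerset,
          mem_filter, mem_powerset] at hR
        obtain ⟨⟨hR1, hR1c⟩, ⟨hR2, hR2c⟩, ⟨hR3, hR3c⟩⟩ := hR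
        simp only at hR1 hR1c hR2 hR2c hR3 hR3c
        show ((Γ.filter (fun G => A.filter (fun z => G.Adj x z) = R1 ∧
          B.filter (fun z => G.Adj y z) = R2 ∧
          F.filter (fun z => G.Adj x z ∧ G.Adj y z) = R)).card : ℝ) ≤ _
        have hcount : (Γ.filter (fun G => A.filter (fun z => G.Adj x z) = R1 ∧
          B.filter (fun z => G.Adj y z) = R2 ∧
          F.filter (fun z => G.Adj x z ∧ G.Adj y z) = R)).card ≤
            (Fintype.piFinset (fun z : Fin n => (univ : Finset (Bool × Bool)).filter
              (fun c => (z ∈ A \ R1 → c.1 = false) ∧ (z ∈ B \ R2 → c.2 = false) ∧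
                (z ∈ F \ R → ¬ (c.1 = true ∧ c.2 = true))))).card := by
          apply Finset.card_le_card_of_injOn
            (fun G => fun z => ((decide (G.Adj x z), decide (G.Adj y z)) : Bool × Bool))
          · intro G hG
            rw [mem_coe, mem_filter] at hG
            rw [mem_coe, Fintype.mem_piFinset]
            intro z
            rw [mem_filter]
            refine ⟨mem_univ _, fun hz => ?_, fun hz => ?_, fun hz => ?_⟩
            · rw [Finset.mem_sdiff, ← hG.2.1, mem_filter] at hz
              exact decide_eq_false (fun h => hz.2 ⟨hz.1, h⟩)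
            · rw [Finset.mem_sdiff, ← hG.2.2.1, mem_filter] at hz
              exact decide_eq_false (fun h => hz.2 ⟨hz.1, h⟩)
            · rw [Finset.mem_sdiff, ← hG.2.2.2, mem_filter] at hz
              simp only [decide_eq_true_eq]
              exact fun h => hz.2 ⟨hz.1, h⟩
          · intro G hG G' hG' he
            rw [mem_coe, mem_filter] at hG hG'
            refine ext_fiber (univ \ E) G G'
              ((hmem G hG.1).2.2.2.trans (hmem G' hG'.1).2.2.2.symm) (fun u hu z => ?_)
            have h4 := congrFun he z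
            simp only [Prod.mk.injEq, decide_eq_decide] at h4
            have hu' : u = x ∨ u = y := by
              by_contra hcon
              push Not at hcon
              exact hu ((hWm u).2 hcon)
            rcases hu' with h | h
            · rw [h]
              exact h4.1
            · rw [h]
              exact h4.2
        rw [Fintype.card_piFinset] at hcount
        have hdisj : ∀ z, z ∈ F → z ∉ A ∧ z ∉ B := by
          intro z hz
          rw [hF, Finset.mem_sdiff, Finset.mem_sdiff, Finset.mem_union] at hz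
          rw [hA, hB, Finset.mem_sdiff, Finset.mem_sdiff]
          exact ⟨fun h => hz.1.2 (Or.inl h.1), fun h => hz.1.2 (Or.inr h.1)⟩
        have hw : ∀ z : Fin n, (((univ : Finset (Bool × Bool)).filter
            (fun c => (z ∈ A \ R1 → c.1 = false) ∧ (z ∈ B \ R2 → c.2 = false) ∧
              (z ∈ F \ R → ¬ (c.1 = true ∧ c.2 = true)))).card : ℝ) ≤
            4 * (if z ∈ A \ R1 then 1 / 2 else 1) * (if z ∈ B \ R2 then 1 / 2 else 1) *
              (if z ∈ F \ R then 3 / 4 else 1) := by
          intro z
          by_cases h3 : z ∈ F \ R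
          · have h4 := hdisj z (Finset.mem_sdiff.1 h3).1
            have h4a : z ∉ A \ R1 := fun h => h4.1 (Finset.mem_sdiff.1 h).1
            have h4b : z ∉ B \ R2 := fun h => h4.2 (Finset.mem_sdiff.1 h).1
            simp only [h4a, h4b, h3, if_true, if_false]
            have h5 : ((univ : Finset (Bool × Bool)).filter
              (fun c => (False → c.1 = false) ∧ (False → c.2 = false) ∧
                (True → ¬ (c.1 = true ∧ c.2 = true)))).card = 3 := by decide
            rw [h5]
            norm_num
          · by_cases h1 : z ∈ A \ R1 <;> by_cases h2 : z ∈ B \ R2 <;>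
              simp only [h1, h2, h3, if_true, if_false]
            · have h5 : ((univ : Finset (Bool × Bool)).filter
                (fun c => (True → c.1 = false) ∧ (True → c.2 = false) ∧
                  (False → ¬ (c.1 = true ∧ c.2 = true)))).card = 1 := by decide
              rw [h5]
              norm_num
            · have h5 : ((univ : Finset (Bool × Bool)).filter
                (fun c => (True → c.1 = false) ∧ (False → c.2 = false) ∧
                  (False → ¬ (c.1 = true ∧ c.2 = true)))).card = 2 := by decide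
              rw [h5]
              norm_num
            · have h5 : ((univ : Finset (Bool × Bool)).filter
                (fun c => (False → c.1 = false) ∧ (True → c.2 = false) ∧
                  (False → ¬ (c.1 = true ∧ c.2 = true)))).card = 2 := by decide
              rw [h5]
              norm_num
            · have h5 : ((univ : Finset (Bool × Bool)).filter
                (fun c => (False → c.1 = false) ∧ (False → c.2 = false) ∧
                  (False → ¬ (c.1 = true ∧ c.2 = true)))).card = 4 := by decide
              rw [h5]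
              norm_num
        have h6 : ((Γ.filter (fun G => A.filter (fun z => G.Adj x z) = R1 ∧
          B.filter (fun z => G.Adj y z) = R2 ∧
          F.filter (fun z => G.Adj x z ∧ G.Adj y z) = R)).card : ℝ) ≤
            ∏ z : Fin n, (4 * (if z ∈ A \ R1 then (1 / 2 : ℝ) else 1) *
              (if z ∈ B \ R2 then 1 / 2 else 1) * (if z ∈ F \ R then 3 / 4 else 1)) := by
          refine le_trans (b := ∏ z : Fin n, (((univ : Finset (Bool × Bool)).filter
            (fun c => (z ∈ A \ R1 → c.1 = false) ∧ (z ∈ B \ R2 → c.2 = false) ∧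
              (z ∈ F \ R → ¬ (c.1 = true ∧ c.2 = true)))).card : ℝ)) ?_ ?_
          · exact_mod_cast hcount
          · exact Finset.prod_le_prod (fun _ _ => Nat.cast_nonneg _) (fun z _ => hw z)
        rw [Finset.prod_mul_distrib, Finset.prod_mul_distrib, Finset.prod_mul_distrib,
          Finset.prod_const, Finset.prod_ite_mem, Finset.prod_ite_mem, Finset.prod_ite_mem,
          Finset.prod_const, Finset.prod_const, Finset.prod_const, Finset.univ_inter,
          Finset.univ_inter, Finset.univ_inter, Finset.card_univ, Fintype.card_fin] at h6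
        refine h6.trans ?_
        have hAR : a - D ≤ (A \ R1).card := by
          have h7 := Finset.le_card_sdiff R1 A
          omega
        have hBR : a - D ≤ (B \ R2).card := by
          have h7 := Finset.le_card_sdiff R2 B
          omega
        have hFR : i - D ≤ (F \ R).card := by
          have h7 := Finset.le_card_sdiff R F
          omega
        have e1 : ((1 : ℝ) / 2) ^ (A \ R1).card ≤ (1 / 2) ^ (a - D) :=
          pow_le_pow_of_le_one (by norm_num) (by norm_num) hAR
        have e2 : ((1 : ℝ) / 2) ^ (B \ R2).card ≤ (1 / 2) ^ (a - D) :=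
          pow_le_pow_of_le_one (by norm_num) (by norm_num) hBR
        have e3 : ((3 : ℝ) / 4) ^ (F \ R).card ≤ (3 / 4) ^ (i - D) :=
          pow_le_pow_of_le_one (by norm_num) (by norm_num) hFR
        gcongr
      have h4 : ∀ S : Finset (Fin n), (S.powerset.filter (fun S => S.card ≤ D)).card ≤
          (n + 1) ^ D := by
        intro S
        refine (few_subsets S D).trans (Nat.pow_le_pow_left ?_ _)
        have := Finset.card_le_univ S
        rw [Fintype.card_fin] at this
        omega
      have h4' : J.card ≤ (n + 1) ^ (D + D + D) := by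
        rw [hJ, Finset.card_product, Finset.card_product, pow_add, pow_add, mul_assoc]
        exact Nat.mul_le_mul (h4 A) (Nat.mul_le_mul (h4 B) (h4 F))
      have h5 : (Γ.card : ℝ) ≤ ∑ R ∈ J, ((Γ.filter (fun G =>
          A.filter (fun z => G.Adj x z) = R.1 ∧
          B.filter (fun z => G.Adj y z) = R.2.1 ∧
          F.filter (fun z => G.Adj x z ∧ G.Adj y z) = R.2.2)).card : ℝ) := by
        exact_mod_cast (Finset.card_le_card h1).trans Finset.card_biUnion_le
      refine h5.trans ((Finset.sum_le_sum h2).trans ?_)
      rw [Finset.sum_const, nsmul_eq_mul]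
      apply mul_le_mul_of_nonneg_right _ (by positivity)
      exact_mod_cast h4'

end Pool.Agent.Q6.PS
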