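import Pool.Agent.Q6.PS.Small

/-!
# Almost all graphs without a given graph with a critical edge are `r`-colourable
-/

set_option autoImplicit false
set_option maxHeartbeats 400000

namespace Pool.Agent.Q6.PS

open Finset Filter
open Pool.Agent.Q6.KPR (co mem_co)

theorem exists_size (c : ℝ) (hc : 0 < c) (k t : ℕ) :
    ∃ s : ℕ, 1 ≤ s ∧ 2 * (k : ℝ) * ((s : ℝ) + 1) ^ t < (2 : ℝ) ^ (s * c) := by
  set θ : ℝ := (2 : ℝ) ^ (-c) with hθ
  have hθ0 : 0 < θ := by positivity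
  have hθ1 : θ < 1 := by
    rw [hθ]
    apply Real.rpow_lt_one_of_one_lt_of_neg (by norm_num)
    linarith
  have h1 : Tendsto (fun n : ℕ => (n : ℝ) ^ t * θ ^ n) atTop (nhds 0) :=
    tendsto_pow_const_mul_const_pow_of_abs_lt_one _ (by
      rw [abs_of_nonneg hθ0.le]
      exact hθ1)
  have hk : (0 : ℝ) < 2 * k + 1 := by positivity
  have h2 := h1.eventually (gt_mem_nhds (div_pos hθ0 hk))
  have h3 := (tendsto_add_atTop_nat 1).eventually h2
  obtain ⟨s, hs1, hs⟩ := (h3.and (eventually_ge_atTop 1)).exists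
  refine ⟨s, hs, ?_⟩
  push_cast at hs1
  rw [lt_div_iff₀ hk] at hs1
  have h4 : (2 : ℝ) ^ (s * c) * θ ^ s = 1 := by
    rw [hθ, pow_rpow 2 _ (by norm_num), ← Real.rpow_add (by norm_num)]
    have : (s : ℝ) * c + -c * s = 0 := by ring
    rw [this, Real.rpow_zero]
  have h5 : 0 < θ ^ s := by positivity
  have h6 : ((s : ℝ) + 1) ^ t * θ ^ s * (2 * k + 1) < 1 := by
    have h7 : ((s : ℝ) + 1) ^ t * θ ^ s * (2 * k + 1) * θ < 1 * θ := by
      calc ((s : ℝ) + 1) ^ t * θ ^ s * (2 * k + 1) * θ =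
            ((s : ℝ) + 1) ^ t * θ ^ (s + 1) * (2 * k + 1) := by
              rw [pow_succ θ s]
              ring
        _ < θ := hs1
        _ = 1 * θ := (one_mul θ).symm
    exact lt_of_mul_lt_mul_right h7 hθ0.le
  have h7 : 0 ≤ ((s : ℝ) + 1) ^ t * θ ^ s := by positivity
  have h8 : 2 * (k : ℝ) * ((s : ℝ) + 1) ^ t * θ ^ s < (2 : ℝ) ^ (s * c) * θ ^ s := by
    rw [h4]
    nlinarith
  exact lt_of_mul_lt_mul_right h8 h5.le

theorem condA (r j s t : ℕ) (hj : 1 ≤ j) (ν : ℝ)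
    (h : 2 * (j : ℝ) * ((s : ℝ) + 1) ^ t < (2 : ℝ) ^ (s * ν)) :
    2 * (j * ((s : ℝ) + 1) ^ t * 2 ^ ((j - 1) * s)) * (2 : ℝ) ^ (s * (1 - j / r - ν)) <
      bet r ^ (j * s) := by
  rw [bet_pow]
  have h1 : (2 : ℝ) ^ ((j - 1) * s) = (2 : ℝ) ^ (((j : ℝ) - 1) * s) := by
    rw [← Real.rpow_natCast]
    congr 1
    rw [Nat.cast_mul, Nat.cast_sub hj]
    simp
  have h2 : (2 : ℝ) ^ (((j : ℝ) - 1) * s) * (2 : ℝ) ^ (s * (1 - j / r - ν)) * (2 : ℝ) ^ (s * ν) =
      (2 : ℝ) ^ (((j * s : ℕ) : ℝ) * (1 - 1 / (r : ℝ))) := by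
    rw [← Real.rpow_add (by norm_num), ← Real.rpow_add (by norm_num)]
    congr 1
    push_cast
    ring
  rw [h1, ← h2]
  have h3 : 0 < (2 : ℝ) ^ (((j : ℝ) - 1) * s) * (2 : ℝ) ^ (s * (1 - j / r - ν)) := by positivity
  calc 2 * (j * ((s : ℝ) + 1) ^ t * (2 : ℝ) ^ (((j : ℝ) - 1) * s)) *
        (2 : ℝ) ^ (s * (1 - j / r - ν)) =
        (2 : ℝ) ^ (((j : ℝ) - 1) * s) * (2 : ℝ) ^ (s * (1 - j / r - ν)) *
          (2 * (j : ℝ) * ((s : ℝ) + 1) ^ t) := by ring
    _ < _ := mul_lt_mul_of_pos_left h h3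

theorem condC (r : ℕ) (m : ℝ) (hm : 0 < m) :
    4 * ((1 / 2 : ℝ) ^ (1 / (r : ℝ) - m)) ^ 2 * (3 / 4 : ℝ) ^ (8 * m) < bet r ^ 2 := by
  rw [bet_pow]
  have e1 : ((1 / 2 : ℝ) ^ (1 / (r : ℝ) - m)) ^ 2 = (2 : ℝ) ^ (-(2 * (1 / (r : ℝ) - m))) := by
    rw [one_div, Real.inv_rpow (by norm_num), ← Real.rpow_neg (by norm_num),
      pow_rpow 2 _ (by norm_num)]
    congr 1
    push_cast
    ring
  have e2 : (4 : ℝ) = (2 : ℝ) ^ (2 : ℝ) := by norm_num
  have e3 : 4 * (2 : ℝ) ^ (-(2 * (1 / (r : ℝ) - m))) =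
      (2 : ℝ) ^ (((2 : ℕ) : ℝ) * (1 - 1 / (r : ℝ))) * (2 : ℝ) ^ (2 * m) := by
    rw [← Real.rpow_add (by norm_num)]
    nth_rewrite 1 [e2]
    rw [← Real.rpow_add (by norm_num)]
    congr 1
    push_cast
    ring
  rw [e1, e3, mul_assoc]
  have e4 : (2 : ℝ) ^ (2 * m) * (3 / 4 : ℝ) ^ (8 * m) < 1 := by
    have e5 : (2 : ℝ) ^ (2 * m) = (4 : ℝ) ^ m := by
      rw [Real.rpow_mul (by norm_num)]
      norm_num
    have e6 : (3 / 4 : ℝ) ^ (8 * m) = ((3 / 4 : ℝ) ^ 8) ^ m := by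
      rw [Real.rpow_mul (by norm_num)]
      norm_num
    rw [e5, e6, ← Real.mul_rpow (by norm_num) (by norm_num)]
    apply Real.rpow_lt_one (by norm_num) (by norm_num) hm
  have e5 : (0 : ℝ) < (2 : ℝ) ^ (((2 : ℕ) : ℝ) * (1 - 1 / (r : ℝ))) := by positivity
  exact mul_lt_of_lt_one_right e5 e4

open Classical in
/-- the graphs which do not contain `F` -/
noncomputable def ff {A : Type} (F : SimpleGraph A) (n : ℕ) : Finset (SimpleGraph (Fin n)) :=
  univ.filter (fun G => F.Free G)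

theorem mem_ff {A : Type} (F : SimpleGraph A) {n : ℕ} (G : SimpleGraph (Fin n)) :
    G ∈ ff F n ↔ F.Free G := by
  simp [ff]

theorem hered_ff {A : Type} (F : SimpleGraph A) : Hered (ff F) := by
  intro m n φ G hG
  rw [mem_ff] at hG ⊢
  intro h
  exact hG (h.trans ⟨(SimpleGraph.Embedding.comap φ G).toCopy⟩)

open Classical in
/-- **Prömel, Steger**: almost all graphs which do not contain a graph `F` of chromatic number
`p + 2` with a critical edge are `(p + 1)`-colourable. -/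
theorem critical {A : Type} [Fintype A] (F : SimpleGraph A) (p : ℕ) (hp : 1 ≤ p) (u0 v0 : A)
    (huv : F.Adj u0 v0) (hcrit : (F.deleteEdges {s(u0, v0)}).Colorable (p + 1))
    (hF : ¬ F.Colorable (p + 1)) (ε : ℝ) (hε : 0 < ε) : ∃ N : ℕ, ∀ n, N ≤ n →
    ((ff F n \ co (p + 1) n).card : ℝ) ≤ ε * (co (p + 1) n).card := by
  have hX := hered_ff F
  have hp1 : (1 : ℝ) ≤ p := by exact_mod_cast hp
  obtain ⟨R, hR⟩ : ∃ R : ℝ, R = (p : ℝ) + 1 := ⟨_, rfl⟩
  have hRc : (((p + 1 : ℕ) : ℕ) : ℝ) = R := by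
    rw [hR]
    push_cast
    ring
  have hR2 : 2 ≤ R := by linarith
  have hR0 : 0 < R := by linarith
  obtain ⟨μ, hμ⟩ : ∃ μ : ℝ, μ = 1 / (200 * R ^ 3) := ⟨_, rfl⟩
  have hμ0 : 0 < μ := by
    rw [hμ]
    positivity
  have hμR : 200 * R ^ 3 * μ ≤ 1 := by
    rw [hμ]
    apply le_of_eq
    field_simp
  have hμs : μ * R ≤ 1 / 200 := by
    have h1 : R ≤ R ^ 3 := by
      have : (1 : ℝ) ≤ R ^ 2 := by nlinarith
      calc R = R * 1 := (mul_one R).symm
        _ ≤ R * R ^ 2 := mul_le_mul_of_nonneg_left this hR0.le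
        _ = R ^ 3 := by ring
    have h2 : R * μ ≤ R ^ 3 * μ := mul_le_mul_of_nonneg_right h1 hμ0.le
    nlinarith
  have hRi : 200 * μ ≤ 1 / R := by
    rw [le_div_iff₀ hR0]
    linarith
  have hRi2 : 1 / R ≤ 1 / 2 := by
    apply one_div_le_one_div_of_le (by norm_num) hR2
  obtain ⟨τ, hτ⟩ : ∃ τ : ℕ, τ = Fintype.card A + 1 := ⟨_, rfl⟩
  have hτ1 : 1 ≤ τ := by omega
  obtain ⟨s, hs1, hs2⟩ := exists_size (μ / 16) (by positivity) p τ
  obtain ⟨M, hM⟩ : ∃ M, M = 2 * (p * s) + p + 2 := ⟨_, rfl⟩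
  have hg := fun t => exists_size (μ / 2) (by positivity) p t
  choose g hg1 hg2 using hg
  obtain ⟨σ, hσ⟩ : ∃ σ : ℕ → ℕ, σ = fun j => g^[p - j] (s + M) := ⟨_, rfl⟩
  have hσp : σ p = s + M := by
    rw [hσ]
    simp
  have hσj : ∀ j < p, σ j = g (σ (j + 1)) := by
    intro j hj
    rw [hσ]
    show g^[p - j] (s + M) = g (g^[p - (j + 1)] (s + M))
    have : p - j = (p - (j + 1)) + 1 := by omega
    rw [this, Function.iterate_succ_apply']
  obtain ⟨D, hD⟩ : ∃ D : ℕ → ℕ, D = fun j => σ (j + 1) * 2 ^ (j * σ j) := ⟨_, rfl⟩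
  obtain ⟨D0, hD0⟩ : ∃ D0 : ℕ, D0 = τ * 2 ^ (p * s) := ⟨_, rfl⟩
  -- the small classes
  set E1 : (n : ℕ) → Finset (SimpleGraph (Fin n)) :=
    EA (ff F) p s τ (1 - (p : ℝ) / ((p + 1 : ℕ) : ℝ) - μ / 16) with hE1
  set E2 : ℕ → (n : ℕ) → Finset (SimpleGraph (Fin n)) := fun j => if 1 ≤ j then
    EA (ff F) j (σ j) (σ (j + 1)) (1 - (j : ℝ) / ((p + 1 : ℕ) : ℝ) - μ / 2) else fun _ => ∅ with hE2
  set E3 : ℕ → (n : ℕ) → Finset (SimpleGraph (Fin n)) := fun j =>
    EB (ff F) j (σ j) (σ (j + 1)) (D j) (1 - (j : ℝ) / R - μ / 2) with hE3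
  set E4 : (n : ℕ) → Finset (SimpleGraph (Fin n)) :=
    EB (ff F) p s τ D0 (1 / R + μ) with hE4
  set E5 : ℕ → (n : ℕ) → Finset (SimpleGraph (Fin n)) := fun j =>
    EC (ff F) p s τ j (σ j) (σ (j + 1)) (D j + D0) (1 / ((p + 1 : ℕ) : ℝ) - μ / 16)
      (8 * (μ / 16)) with hE5
  have hpR : (p : ℝ) / R = 1 - 1 / R := by
    rw [hR]
    field_simp
    ring
  have hjR : ∀ j < p, (j : ℝ) / R ≤ 1 - 2 / R := by
    intro j hj
    have h1 : (j : ℝ) + 1 ≤ p := by exact_mod_cast hj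
    rw [div_le_iff₀ hR0, sub_mul, div_mul_cancel₀ _ hR0.ne', one_mul]
    linarith
  have h2R : 2 / R = 2 * (1 / R) := by ring
  have n1 : Negl (ff F) (p + 1) E1 := by
    apply negl_EA (ff F) hX _ _ _ _ (by omega)
    · rw [hRc, hpR]
      linarith
    · exact hp
    · exact hs1
    · exact condA (p + 1) p s τ hp (μ / 16) hs2
  have n2 : ∀ j < p, Negl (ff F) (p + 1) (E2 j) := by
    intro j hj
    by_cases hj1 : 1 ≤ j
    · simp only [hE2, hj1, if_true]
      apply negl_EA (ff F) hX _ _ _ _ (by omega)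
      · rw [hRc]
        have := hjR j hj
        linarith
      · exact hj1
      · rw [hσj j hj]
        exact hg1 _
      · apply condA (p + 1) j (σ j) (σ (j + 1)) hj1 (μ / 2)
        have h1 := hg2 (σ (j + 1))
        rw [← hσj j hj] at h1
        refine lt_of_le_of_lt ?_ h1
        have h2 : (j : ℝ) ≤ p := by exact_mod_cast hj.le
        have h3 : (0 : ℝ) ≤ ((σ j : ℝ) + 1) ^ σ (j + 1) := by positivity
        nlinarith
    · simp only [hE2, hj1, if_false]
      exact Negl.empty _ _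
  have n3 : ∀ j < p, Negl (ff F) (p + 1) (E3 j) := by
    intro j hj
    have h1 := hjR j hj
    have h2 : (0 : ℝ) ≤ (j : ℝ) / R := by positivity
    apply negl_EB (ff F) hX _ _ _ _ _ (by omega)
    · rw [hRc]
      linarith
    · linarith
  have n4 : Negl (ff F) (p + 1) E4 := by
    apply negl_EB (ff F) hX _ _ _ _ _ (by omega)
    · rw [hRc]
      linarith
    · linarith
  have n5 : ∀ j < p, Negl (ff F) (p + 1) (E5 j) := by
    intro j hj
    apply negl_EC (ff F) hX _ _ _ _ _ _ _ _ (by omega)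
    · rw [hRc]
      linarith
    · linarith
    · exact condC (p + 1) (μ / 16) (by positivity)
  have hN := ((((n1.union (Negl.range E2 p n2)).union (Negl.range E3 p n3)).union n4).union
    (Negl.range E5 p n5))
  have hα0 : 0 < 1 / R - μ / 16 := by linarith
  refine almost_of_negl (by omega) _ hN (⌈((D0 : ℝ) + 3) / (1 / R - μ / 16)⌉₊ + 1) ?_ ε hε
  intro n hn' G hG hGE
  have hn : 1 ≤ n := by omega
  have hnD : (D0 : ℝ) + 3 ≤ (1 / R - μ / 16) * n := by
    have h1 : ((D0 : ℝ) + 3) / (1 / R - μ / 16) ≤ n := (Nat.le_ceil _).trans (by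
      exact_mod_cast (by omega : ⌈((D0 : ℝ) + 3) / (1 / R - μ / 16)⌉₊ ≤ n))
    rw [div_le_iff₀ hα0] at h1
    linarith
  rw [mem_union, mem_union, mem_union, mem_union] at hGE
  push Not at hGE
  obtain ⟨⟨⟨⟨hG1, hG2⟩, hG3⟩, hG4⟩, hG5⟩ := hGE
  have hGF := (mem_ff F G).1 hG
  have hn0 : (0 : ℝ) < n := by exact_mod_cast hn
  have a1 : ∀ Y : Fin p → Finset (Fin n), IsBlow G Y s →
      (1 / R - μ / 16) * n ≤ ((Full G Y τ).card : ℝ) := by
    intro Y hY
    by_contra hcon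
    push Not at hcon
    apply hG1
    rw [hE1, EA, mem_filter]
    refine ⟨hG, Y, hY, ?_⟩
    rw [hRc, hpR]
    have : 1 - (1 - 1 / R) - μ / 16 = 1 / R - μ / 16 := by ring
    rw [this]
    exact hcon
  have a2 : ∀ j < p, ∀ Y : Fin j → Finset (Fin n), IsBlow G Y (σ j) →
      (1 - (j : ℝ) / R - μ / 2) * n ≤ ((Full G Y (σ (j + 1))).card : ℝ) := by
    intro j hj Y hY
    by_cases hj1 : 1 ≤ j
    · by_contra hcon
      push Not at hcon
      apply hG2
      rw [mem_biUnion]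
      refine ⟨j, Finset.mem_range.2 hj, ?_⟩
      simp only [hE2, hj1, if_true]
      rw [EA, mem_filter, hRc]
      exact ⟨hG, Y, hY, hcon⟩
    · have hj0 : j = 0 := by omega
      subst hj0
      have h1 : Full G Y (σ (0 + 1)) = univ := by
        ext z
        rw [mem_Full]
        exact ⟨fun _ => mem_univ _, fun _ a => a.elim0⟩
      rw [h1, Finset.card_univ, Fintype.card_fin]
      push_cast
      rw [zero_div]
      nlinarith
  -- few neighbours of `x` have neighbours in all classes of a blow-up in its neighbourhood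
  have a3 : ∀ (x : Fin n) (Y : Fin p → Finset (Fin n)), IsBlow G Y s →
      (∀ a, ∀ y ∈ Y a, G.Adj x y) → ((Full G Y τ).filter (fun z => G.Adj x z)).card ≤ D0 := by
    intro x Y hY hxY
    by_contra hcon
    push Not at hcon
    have h1 : τ * 2 ^ (p * s) < ((univ.filter (fun z => G.Adj x z)) ∩ Full G Y τ).card := by
      rw [← hD0]
      refine lt_of_lt_of_le hcon (Finset.card_le_card ?_)
      intro z hz
      rw [mem_filter] at hz
      rw [mem_inter, mem_filter]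
      exact ⟨⟨mem_univ _, hz.2⟩, hz.1⟩
    obtain ⟨Z, W', hZc, hW', hZS, hWY, hadj⟩ := pigeon G p s τ Y hY _ h1
    have hZne : Z.Nonempty := by
      rw [← Finset.card_pos]
      omega
    obtain ⟨y, hy⟩ := hZne
    have hZx : ∀ z ∈ Z, G.Adj x z := fun z hz => (Finset.mem_filter.1 (hZS hz)).2
    refine embed F p u0 v0 huv hcrit hF G x y (hZx y hy) (Z.erase y) W' ?_ ?_ ?_ hW'.2 ?_ ?_ ?_ ?_
      hGF
    · rw [Finset.card_erase_of_mem hy, hZc]
      omega
    · intro i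
      rw [hW'.1 i]
      omega
    · exact fun z hz => hadj z (Finset.mem_of_mem_erase hz)
    · exact fun i w hw => hxY i w (hWY i hw)
    · exact hadj y hy
    · exact fun h => (hZx x (Finset.mem_of_mem_erase h)).ne rfl
    · exact Finset.notMem_erase _ _
  -- blow-ups in neighbourhoods
  have hch1 : ∀ x, ∃ W : Fin p → Finset (Fin n), IsBlow G W (σ p) ∧
      ∀ a, ∀ y ∈ W a, G.Adj x y := by
    intro x
    rcases chain G σ (univ.filter (fun y => G.Adj x y)) p with ⟨W, hW, hWS⟩ | ⟨j, hj, W, hW, hWS, hc⟩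
    · exact ⟨W, hW, fun a y hy => (Finset.mem_filter.1 (hWS a hy)).2⟩
    · exfalso
      apply hG3
      rw [mem_biUnion]
      refine ⟨j, Finset.mem_range.2 hj, ?_⟩
      rw [hE3]
      show G ∈ EB (ff F) j (σ j) (σ (j + 1)) (D j) (1 - (j : ℝ) / R - μ / 2) n
      rw [EB, mem_filter]
      refine ⟨hG, x, W, hW, fun a y hy => (Finset.mem_filter.1 (hWS a hy)).2, ?_, a2 j hj W hW⟩
      rw [hD]
      refine le_trans (Finset.card_le_card ?_) hc
      intro z hz
      rw [mem_filter] at hz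
      rw [mem_inter, mem_filter]
      exact ⟨⟨mem_univ _, hz.2⟩, hz.1⟩
  have c1 : ∀ (x : Fin n) (Z : Finset (Fin n)), Z.card ≤ M → ∃ Y : Fin p → Finset (Fin n),
      IsBlow G Y s ∧ ∀ a, ∀ y ∈ Y a, G.Adj x y ∧ y ∉ Z := by
    intro x Z hZ
    obtain ⟨W, hW, hxW⟩ := hch1 x
    have h1 : ∀ a, s ≤ (W a \ Z).card := by
      intro a
      have h2 := Finset.le_card_sdiff Z (W a)
      rw [hW.1 a, hσp] at h2
      omega
    have hch := fun a => Finset.exists_subset_card_eq (h1 a)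
    choose Y hY hYc using hch
    refine ⟨Y, ⟨hYc, fun a b hab u hu v hv => hW.2 a b hab u
      (Finset.mem_sdiff.1 (hY a hu)).1 v (Finset.mem_sdiff.1 (hY b hv)).1⟩, fun a y hy => ?_⟩
    have h3 := Finset.mem_sdiff.1 (hY a hy)
    exact ⟨hxW a y h3.1, h3.2⟩
  have c2 : ∀ Y : Fin p → Finset (Fin n), IsBlow G Y s →
      (1 / ((p : ℝ) + 1) - μ) * n ≤ ((Full G Y τ).card : ℝ) := by
    intro Y hY
    refine le_trans ?_ (a1 Y hY)
    rw [← hR]
    apply mul_le_mul_of_nonneg_right _ hn0.le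
    linarith
  have c3 : ∀ (x : Fin n) (Y : Fin p → Finset (Fin n)), IsBlow G Y s →
      (∀ a, ∀ y ∈ Y a, G.Adj x y) →
      ((Full G Y τ).card : ℝ) ≤ (1 / ((p : ℝ) + 1) + μ) * n := by
    intro x Y hY hxY
    by_contra hcon
    push Not at hcon
    apply hG4
    rw [hE4, EB, mem_filter]
    refine ⟨hG, x, Y, hY, hxY, a3 x Y hY hxY, ?_⟩
    rw [hR]
    exact hcon.le
  have c4 : ∀ x y, G.Adj x y → ∀ Y Y' : Fin p → Finset (Fin n), IsBlow G Y s → IsBlow G Y' s →
      (∀ a, ∀ z ∈ Y a, G.Adj x z ∧ z ≠ y) → (∀ a, ∀ z ∈ Y' a, G.Adj y z ∧ z ≠ x) →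
      (2 / ((p : ℝ) + 1) - μ) * n ≤ ((Full G Y τ ∪ Full G Y' τ).card : ℝ) := by
    intro x y hxy Y Y' hY hY' hxX hyY
    rcases chain G σ (univ.filter (fun z => G.Adj x z ∧ G.Adj y z)) p with
      ⟨W, hW, hWS⟩ | ⟨j, hj, W, hW, hWS, hc⟩
    · exfalso
      have h1 : ∀ a, s ≤ (W a).card := by
        intro a
        rw [hW.1 a, hσp]
        omega
      have hch := fun a => Finset.exists_subset_card_eq (h1 a)
      choose W1 hW1 hW1c using hch
      have hW1b : IsBlow G W1 s := ⟨hW1c, fun a b hab u hu v hv => hW.2 a b hab u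
        (hW1 a hu) v (hW1 b hv)⟩
      have h2 := a1 W1 hW1b
      have h3 : τ * 2 ^ (p * s) < ((univ \ {x, y}) ∩ Full G W1 τ).card := by
        have h4 : (Full G W1 τ).card ≤ ((univ \ {x, y}) ∩ Full G W1 τ).card + 2 := by
          have h5 : Full G W1 τ ⊆ ((univ \ {x, y}) ∩ Full G W1 τ) ∪ {x, y} := by
            intro z hz
            rw [Finset.mem_union, Finset.mem_inter, Finset.mem_sdiff]
            by_cases h : z ∈ ({x, y} : Finset (Fin n))
            · exact Or.inr h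
            · exact Or.inl ⟨⟨mem_univ _, h⟩, hz⟩
          refine (Finset.card_le_card h5).trans ((Finset.card_union_le _ _).trans ?_)
          exact Nat.add_le_add_left Finset.card_le_two _
        have h6 : (D0 : ℝ) + 3 ≤ ((Full G W1 τ).card : ℝ) := hnD.trans h2
        have h7 : D0 + 3 ≤ (Full G W1 τ).card := by exact_mod_cast h6
        omega
      obtain ⟨Z, W', hZc, hW', hZS, hWW, hadj⟩ := pigeon G p s τ W1 hW1b _ h3
      have hZn : ∀ z ∈ Z, z ≠ x ∧ z ≠ y := by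
        intro z hz
        have := Finset.mem_sdiff.1 (hZS hz)
        constructor
        · rintro rfl
          exact this.2 (by simp)
        · rintro rfl
          exact this.2 (by simp)
      refine embed F p u0 v0 huv hcrit hF G x y hxy Z W' ?_ ?_ hadj hW'.2 ?_ ?_ ?_ ?_ hGF
      · rw [hZc]
        omega
      · intro i
        rw [hW'.1 i]
        omega
      · exact fun i w hw => (Finset.mem_filter.1 (hWS i (hW1 i (hWW i hw)))).2.1
      · exact fun i w hw => (Finset.mem_filter.1 (hWS i (hW1 i (hWW i hw)))).2.2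
      · exact fun h => (hZn x h).1 rfl
      · exact fun h => (hZn y h).2 rfl
    · have h1 := a2 j hj W hW
      have h2 : ((Full G W (σ (j + 1)) \ (Full G Y τ ∪ Full G Y' τ)).card : ℝ) <
          8 * (μ / 16) * n := by
        by_contra hcon
        push Not at hcon
        apply hG5
        rw [mem_biUnion]
        refine ⟨j, Finset.mem_range.2 hj, ?_⟩
        rw [hE5]
        show G ∈ EC (ff F) p s τ j (σ j) (σ (j + 1)) (D j + D0) (1 / ((p + 1 : ℕ) : ℝ) - μ / 16)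
          (8 * (μ / 16)) n
        rw [EC, mem_filter, hRc]
        refine ⟨hG, x, y, Y, Y', W, hxy, hY.1, hY'.1, hW.1, hxX, hyY, ?_, ?_, ?_, ?_, a1 Y hY,
          a1 Y' hY', hcon⟩
        · exact fun a z hz => (Finset.mem_filter.1 (hWS a hz)).2
        · exact (a3 x Y hY (fun a z hz => (hxX a z hz).1)).trans (Nat.le_add_left _ _)
        · exact (a3 y Y' hY' (fun a z hz => (hyY a z hz).1)).trans (Nat.le_add_left _ _)
        · refine le_trans (le_trans (Finset.card_le_card ?_) hc) ?_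
          · intro z hz
            rw [mem_filter] at hz
            rw [mem_inter, mem_filter]
            exact ⟨⟨mem_univ _, hz.2⟩, hz.1⟩
          · rw [hD]
            exact Nat.le_add_right _ _
      have h3 : (Full G W (σ (j + 1))).card ≤ (Full G Y τ ∪ Full G Y' τ).card +
          (Full G W (σ (j + 1)) \ (Full G Y τ ∪ Full G Y' τ)).card := by
        rw [← Finset.card_inter_add_card_sdiff (Full G W (σ (j + 1)))
          (Full G Y τ ∪ Full G Y' τ)]
        exact Nat.add_le_add_right (Finset.card_le_card Finset.inter_subset_right) _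
      have h4 : ((Full G W (σ (j + 1))).card : ℝ) ≤ (Full G Y τ ∪ Full G Y' τ).card +
          (Full G W (σ (j + 1)) \ (Full G Y τ ∪ Full G Y' τ)).card := by exact_mod_cast h3
      have h5 := hjR j hj
      rw [← hR]
      have h6 : (2 / R - μ / 2) * n ≤ (1 - (j : ℝ) / R - μ / 2) * n := by
        apply mul_le_mul_of_nonneg_right _ hn0.le
        linarith
      have h7 : (2 / R - μ) * n = (2 / R - μ / 2) * n - 8 * (μ / 16) * n := by ring
      rw [h7]
      linarith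
  rw [mem_co]
  refine struct G p s τ M n μ (by simp) hn0 hμ0.le hp hs1 hτ1 (by rw [hM]) ?_ c1 c2 c3 c4
  rw [← hR]
  exact hμR

end Pool.Agent.Q6.PS
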