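import Pool.Agent.Q6.PS.Chain

/-!
# Negligible classes of graphs
-/

set_option autoImplicit false
set_option maxHeartbeats 400000

namespace Pool.Agent.Q6.PS

open Finset Filter
open Pool.Agent.Q6.KPR (co co_add co_pos mem_co)

/-- the growth rate of the number of `r`-colourable graphs -/
noncomputable def bet (r : ℕ) : ℝ := (2 : ℝ) ^ (1 - 1 / (r : ℝ))

theorem bet_pow (r k : ℕ) : bet r ^ k = (2 : ℝ) ^ ((k : ℝ) * (1 - 1 / (r : ℝ))) := by
  rw [bet, ← Real.rpow_natCast, ← Real.rpow_mul (by norm_num), mul_comm]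

theorem one_le_bet (r : ℕ) (hr : 1 ≤ r) : 1 ≤ bet r := by
  apply Real.one_le_rpow (by norm_num)
  have h1 : (1 : ℝ) ≤ r := by exact_mod_cast hr
  have h2 : 1 / (r : ℝ) ≤ 1 := by
    rw [div_le_one (by linarith)]
    exact h1
  linarith

theorem bet_r (r : ℕ) (hr : 1 ≤ r) : bet r ^ r = 2 ^ (r - 1) := by
  have h1 : (1 : ℝ) ≤ r := by exact_mod_cast hr
  rw [bet_pow]
  have h2 : (r : ℝ) * (1 - 1 / (r : ℝ)) = ((r - 1 : ℕ) : ℝ) := by
    rw [Nat.cast_sub hr]
    field_simp
    simp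
  rw [h2, Real.rpow_natCast]

/-- A sequence of sets of graphs whose sizes are small compared with the number of `r`-colourable
graphs if the ratios for the smaller numbers of vertices are bounded. -/
def Negl (X : (n : ℕ) → Finset (SimpleGraph (Fin n))) (r : ℕ) (E : (n : ℕ) → Finset (SimpleGraph (Fin n))) : Prop :=
  ∃ (δ : ℕ → ℝ) (n1 : ℕ), Tendsto δ atTop (nhds 0) ∧ ∀ n, n1 ≤ n → ∀ K : ℝ, 0 ≤ K →
    (∀ m < n, ((X m).card : ℝ) ≤ K * (co r m).card) →
    ((E n).card : ℝ) ≤ K * δ n * (co r n).card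

theorem Negl.mono {X : (n : ℕ) → Finset (SimpleGraph (Fin n))} {r : ℕ} {E E' : (n : ℕ) → Finset (SimpleGraph (Fin n))} (h : Negl X r E')
    (n0 : ℕ) (hE : ∀ n, n0 ≤ n → E n ⊆ E' n) : Negl X r E := by
  obtain ⟨δ, n1, hδ, h1⟩ := h
  refine ⟨δ, max n0 n1, hδ, fun n hn K hK hm => ?_⟩
  refine le_trans ?_ (h1 n ((le_max_right _ _).trans hn) K hK hm)
  exact_mod_cast Finset.card_le_card (hE n ((le_max_left _ _).trans hn))

open Classical in
theorem Negl.union {X : (n : ℕ) → Finset (SimpleGraph (Fin n))} {r : ℕ} {E E' : (n : ℕ) → Finset (SimpleGraph (Fin n))} (h : Negl X r E)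
    (h' : Negl X r E') : Negl X r (fun n => E n ∪ E' n) := by
  obtain ⟨δ, n1, hδ, h1⟩ := h
  obtain ⟨δ', n2, hδ', h2⟩ := h'
  refine ⟨fun n => δ n + δ' n, max n1 n2, ?_, fun n hn K hK hm => ?_⟩
  · have := hδ.add hδ'
    rwa [add_zero] at this
  · have e1 := h1 n ((le_max_left _ _).trans hn) K hK hm
    have e2 := h2 n ((le_max_right _ _).trans hn) K hK hm
    have e3 : ((E n ∪ E' n).card : ℝ) ≤ (E n).card + (E' n).card := by
      exact_mod_cast Finset.card_union_le _ _
    have e4 : K * (δ n + δ' n) * (co r n).card =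
        K * δ n * (co r n).card + K * δ' n * (co r n).card := by ring
    show _ ≤ K * (δ n + δ' n) * (co r n).card
    rw [e4]
    linarith

theorem Negl.empty (X : (n : ℕ) → Finset (SimpleGraph (Fin n))) (r : ℕ) : Negl X r (fun _ => ∅) :=
  ⟨fun _ => 0, 0, tendsto_const_nhds, fun n _ K _ _ => by simp⟩

open Classical in
theorem Negl.range {X : (n : ℕ) → Finset (SimpleGraph (Fin n))} {r : ℕ} (E : ℕ → (n : ℕ) → Finset (SimpleGraph (Fin n))) (k : ℕ)
    (h : ∀ j < k, Negl X r (E j)) : Negl X r (fun n => (range k).biUnion (fun j => E j n)) := by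
  induction k with
  | zero =>
    refine (Negl.empty X r).mono 0 (fun n _ => ?_)
    intro G hG
    simp at hG
  | succ k ih =>
    have h1 := (ih (fun j hj => h j (Nat.lt_succ_of_lt hj))).union (h k (Nat.lt_succ_self k))
    refine h1.mono 0 (fun n _ => ?_)
    intro G hG
    rw [mem_biUnion] at hG
    obtain ⟨j, hj, hG⟩ := hG
    rw [Finset.mem_range] at hj
    rw [mem_union, mem_biUnion]
    rcases Nat.lt_succ_iff_lt_or_eq.1 hj with h2 | rfl
    · exact Or.inl ⟨j, Finset.mem_range.2 h2, hG⟩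
    · exact Or.inr hG

theorem negl_of_bound (X : (n : ℕ) → Finset (SimpleGraph (Fin n))) {r : ℕ} (hr : 1 ≤ r) (E : (n : ℕ) → Finset (SimpleGraph (Fin n)))
    (k q : ℕ) (hk : 1 ≤ k) (C γ : ℝ) (hC : 0 ≤ C) (hγ : 0 ≤ γ) (hγ2 : γ < bet r ^ k) (n1 : ℕ)
    (h : ∀ n, n1 ≤ n → ((E n).card : ℝ) ≤ C * (n + 1) ^ q * ((X (n - k)).card * γ ^ n)) :
    Negl X r E := by
  have hb := one_le_bet r hr
  have hb0 : 0 < bet r := by linarith
  have hbk : 0 < bet r ^ k := by positivity
  set θ : ℝ := γ / bet r ^ k with hθ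
  have hθ0 : 0 ≤ θ := div_nonneg hγ hbk.le
  have hθ1 : θ < 1 := (div_lt_one hbk).2 hγ2
  refine ⟨fun n => C * bet r ^ (k * k) * 2 ^ q * ((n : ℝ) ^ q * θ ^ n), max (max n1 k) 1, ?_, ?_⟩
  · have t1 : Tendsto (fun n : ℕ => (n : ℝ) ^ q * θ ^ n) atTop (nhds 0) :=
      tendsto_pow_const_mul_const_pow_of_abs_lt_one _ (by
        rw [abs_of_nonneg hθ0]
        exact hθ1)
    have t2 := t1.const_mul (C * bet r ^ (k * k) * 2 ^ q)
    rwa [mul_zero] at t2
  · intro n hn K hK hm
    have hn1 : n1 ≤ n := (le_max_left _ _).trans ((le_max_left _ _).trans hn)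
    have hnk : k ≤ n := (le_max_right _ _).trans ((le_max_left _ _).trans hn)
    have hn0 : 1 ≤ n := (le_max_right _ _).trans hn
    have e1 := h n hn1
    have e2 := hm (n - k) (by omega)
    have e3 := co_add hr (n - k) k (bet r) hb (bet_r r hr)
    rw [Nat.sub_add_cancel hnk] at e3
    have e4 : bet r ^ (k * n) * ((co r (n - k)).card : ℝ) ≤ bet r ^ (k * k) * (co r n).card := by
      have e5 : k * n = k * k + k * (n - k) := by
        rw [← Nat.mul_add, Nat.add_sub_cancel' hnk]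
      rw [e5, pow_add, mul_assoc]
      exact mul_le_mul_of_nonneg_left e3 (by positivity)
    have e6 : ((n : ℝ) + 1) ^ q ≤ 2 ^ q * (n : ℝ) ^ q := by
      rw [← mul_pow]
      apply pow_le_pow_left₀ (by positivity)
      have : (1 : ℝ) ≤ n := by exact_mod_cast hn0
      linarith
    have e7 : γ ^ n = bet r ^ (k * n) * θ ^ n := by
      rw [hθ, div_pow, ← pow_mul]
      field_simp
    calc ((E n).card : ℝ) ≤ C * (n + 1) ^ q * ((X (n - k)).card * γ ^ n) := e1
      _ ≤ C * (2 ^ q * (n : ℝ) ^ q) * ((K * (co r (n - k)).card) * γ ^ n) := by gcongr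
      _ = C * (2 ^ q * (n : ℝ) ^ q) * K * θ ^ n *
          (bet r ^ (k * n) * (co r (n - k)).card) := by
          rw [e7]
          ring
      _ ≤ C * (2 ^ q * (n : ℝ) ^ q) * K * θ ^ n * (bet r ^ (k * k) * (co r n).card) :=
          mul_le_mul_of_nonneg_left e4 (by positivity)
      _ = _ := by ring

open Classical in
/-- the final induction -/
theorem almost_of_negl {X : (n : ℕ) → Finset (SimpleGraph (Fin n))} {r : ℕ} (hr : 1 ≤ r) (E : (n : ℕ) → Finset (SimpleGraph (Fin n)))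
    (hE : Negl X r E) (n0 : ℕ) (hcov : ∀ n, n0 ≤ n → ∀ G ∈ X n, G ∉ E n → G ∈ co r n)
    (ε : ℝ) (hε : 0 < ε) : ∃ N : ℕ, ∀ n, N ≤ n →
    ((X n \ co r n).card : ℝ) ≤ ε * (co r n).card := by
  obtain ⟨δ, n1, hδ, hstep'⟩ := hE
  have hstep : ∀ n, max n0 n1 ≤ n → ∀ K : ℝ, 0 ≤ K →
      (∀ m < n, ((X m).card : ℝ) ≤ K * (co r m).card) →
      ((X n \ co r n).card : ℝ) ≤ K * δ n * (co r n).card := by
    intro n hn K hK hm
    have h1 := hstep' n ((le_max_right _ _).trans hn) K hK hm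
    refine le_trans ?_ h1
    have h2 : X n \ co r n ⊆ E n := by
      intro G hG
      rw [Finset.mem_sdiff] at hG
      by_contra h
      exact hG.2 (hcov n ((le_max_left _ _).trans hn) G hG.1 h)
    exact_mod_cast Finset.card_le_card h2
  obtain ⟨n2, hn2⟩ := eventually_atTop.1 (hδ.eventually (gt_mem_nhds (show (0 : ℝ) < 1 / 2 by
    norm_num)))
  obtain ⟨N0, hN0⟩ : ∃ N0, N0 = max (max n0 n1) n2 := ⟨_, rfl⟩
  have hn01 : max n0 n1 ≤ N0 := by rw [hN0]; exact le_max_left _ _
  have hn02 : n2 ≤ N0 := by rw [hN0]; exact le_max_right _ _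
  obtain ⟨K, hK⟩ : ∃ K : ℝ, K = 2 + ∑ m ∈ Finset.range N0, ((X m).card : ℝ) := ⟨_, rfl⟩
  have hsum : (0 : ℝ) ≤ ∑ m ∈ Finset.range N0, ((X m).card : ℝ) :=
    Finset.sum_nonneg (fun _ _ => Nat.cast_nonneg _)
  have hK2 : 2 ≤ K := by linarith
  have hb : ∀ n, (1 : ℝ) ≤ (co r n).card := fun n => by exact_mod_cast co_pos r n hr
  have hall : ∀ n, ((X n).card : ℝ) ≤ K * (co r n).card := by
    intro n
    induction n using Nat.strong_induction_on with
    | _ n ih =>
      rcases lt_or_ge n N0 with h | h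
      · have h1 : ((X n).card : ℝ) ≤ ∑ m ∈ Finset.range N0, ((X m).card : ℝ) :=
          Finset.single_le_sum (f := fun m => ((X m).card : ℝ)) (fun _ _ => Nat.cast_nonneg _)
            (Finset.mem_range.2 h)
        have h2 := hb n
        nlinarith
      · have h1' := hstep n (hn01.trans h) K (by linarith) ih
        have h0 : ((X n).card : ℝ) ≤ (X n \ co r n).card + (co r n).card := by
          exact_mod_cast Finset.card_le_card_sdiff_add_card
        have h1 : ((X n).card : ℝ) - (co r n).card ≤ K * δ n * (co r n).card := by linarith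
        have h2 := (hn2 n (hn02.trans h)).le
        have h3 := hb n
        have h4 : K * δ n * (co r n).card ≤ K * (1 / 2) * (co r n).card := by
          apply mul_le_mul_of_nonneg_right _ (by linarith)
          exact mul_le_mul_of_nonneg_left h2 (by linarith)
        nlinarith
  obtain ⟨n3, hn3⟩ := eventually_atTop.1 (hδ.eventually
    (gt_mem_nhds (div_pos hε (by linarith : (0 : ℝ) < K))))
  refine ⟨max N0 n3, fun n hn => ?_⟩
  have h1 := hstep n (hn01.trans ((le_max_left _ _).trans hn)) K (by linarith)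
    (fun m _ => hall m)
  have h2 := (hn3 n ((le_max_right _ _).trans hn)).le
  have h3 : K * δ n ≤ ε := by
    rw [le_div_iff₀ (by linarith)] at h2
    linarith
  exact h1.trans (mul_le_mul_of_nonneg_right h3 (by linarith [hb n]))

end Pool.Agent.Q6.PS
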