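import Pool.Agent.Q6.PS.Negl

/-!
# The three classes are negligible
-/

set_option autoImplicit false
set_option maxHeartbeats 400000

namespace Pool.Agent.Q6.PS

open Finset Filter

theorem union_le {ι β : Type} [DecidableEq β] (s : Finset ι) (F : ι → Finset β) (M : ℝ)
    (h : ∀ i ∈ s, ((F i).card : ℝ) ≤ M) : ((s.biUnion F).card : ℝ) ≤ s.card * M := by
  have h1 : ((s.biUnion F).card : ℝ) ≤ ∑ i ∈ s, ((F i).card : ℝ) := by
    exact_mod_cast Finset.card_biUnion_le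
  refine h1.trans ((Finset.sum_le_sum h).trans (le_of_eq ?_))
  rw [Finset.sum_const, nsmul_eq_mul]

/-- the tuples of sets of `s` vertices -/
def tup (n j s : ℕ) : Finset (Fin j → Finset (Fin n)) :=
  Fintype.piFinset (fun _ => Finset.powersetCard s univ)

theorem mem_tup {n j s : ℕ} (Y : Fin j → Finset (Fin n)) :
    Y ∈ tup n j s ↔ ∀ a, (Y a).card = s := by
  rw [tup, Fintype.mem_piFinset]
  simp

theorem card_tup (n j s : ℕ) : ((tup n j s).card : ℝ) ≤ ((n : ℝ) + 1) ^ (s * j) := by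
  have h1 : (tup n j s).card ≤ (n + 1) ^ (s * j) := by
    rw [tup, Fintype.card_piFinset, Finset.prod_const, Finset.card_univ, Fintype.card_fin,
      Finset.card_powersetCard, Finset.card_univ, Fintype.card_fin, pow_mul]
    apply Nat.pow_le_pow_left
    exact (Nat.choose_le_pow n s).trans (Nat.pow_le_pow_left (Nat.le_succ n) s)
  exact_mod_cast h1

theorem pow_rpow (a x : ℝ) (ha : 0 < a) (n : ℕ) : (a ^ x) ^ n = a ^ (x * n) := by
  rw [← Real.rpow_natCast, ← Real.rpow_mul ha.le]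

open Classical in
noncomputable def EA (X : (n : ℕ) → Finset (SimpleGraph (Fin n))) (j s t : ℕ) (κ : ℝ) (n : ℕ) : Finset (SimpleGraph (Fin n)) :=
  (X n).filter (fun G => ∃ Y : Fin j → Finset (Fin n), IsBlow G Y s ∧
    ((Full G Y t).card : ℝ) < κ * n)

theorem negl_EA (X : (n : ℕ) → Finset (SimpleGraph (Fin n))) (hX : Hered X) (r j s t : ℕ)
    (hr : 1 ≤ r) (κ : ℝ) (hκ : 0 ≤ κ) (hj : 1 ≤ j) (hs : 1 ≤ s)
    (hc : 2 * (j * ((s : ℝ) + 1) ^ t * 2 ^ ((j - 1) * s)) * (2 : ℝ) ^ (s * κ) <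
      bet r ^ (j * s)) : Negl X r (EA X j s t κ) := by
  classical
  refine negl_of_bound X hr _ (j * s) (s * j) (Nat.mul_pos hj hs) 1
    (2 * (j * ((s : ℝ) + 1) ^ t * 2 ^ ((j - 1) * s)) * (2 : ℝ) ^ (s * κ)) zero_le_one
    (by positivity) hc 0 (fun n _ => ?_)
  set m := ⌊κ * n⌋₊ with hm
  have h1 : EA X j s t κ n ⊆ ((tup n j s).filter (fun Y => ∀ a b, a ≠ b →
      Disjoint (Y a) (Y b))).biUnion (fun Y => (X n).filter (fun G => (Full G Y t).card ≤ m)) := by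
    intro G hG
    rw [EA, mem_filter] at hG
    obtain ⟨hGf, Y, hY, hF⟩ := hG
    rw [mem_biUnion]
    refine ⟨Y, ?_, ?_⟩
    · rw [mem_filter, mem_tup]
      refine ⟨hY.1, fun a b hab => ?_⟩
      rw [Finset.disjoint_left]
      intro y hya hyb
      exact (hY.2 a b hab y hya y hyb).ne rfl
    · rw [mem_filter]
      exact ⟨hGf, Nat.le_floor hF.le⟩
  have h2 := union_le ((tup n j s).filter (fun Y => ∀ a b, a ≠ b → Disjoint (Y a) (Y b)))
    (fun Y => (X n).filter (fun G => (Full G Y t).card ≤ m)) _ (fun Y hY => by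
      rw [mem_filter, mem_tup] at hY
      exact classA X hX j s t m Y hY.1 hY.2 hj)
  have h3 : ((((tup n j s).filter (fun Y => ∀ a b, a ≠ b → Disjoint (Y a) (Y b))).card : ℕ) : ℝ) ≤
      ((n : ℝ) + 1) ^ (s * j) := by
    refine le_trans ?_ (card_tup n j s)
    exact_mod_cast Finset.card_filter_le _ _
  have h4 := (Nat.cast_le (α := ℝ)).2 (Finset.card_le_card h1)
  have h5 : (2 : ℝ) ^ (s * m) ≤ ((2 : ℝ) ^ (s * κ)) ^ n := by
    rw [pow_rpow 2 _ (by norm_num), ← Real.rpow_natCast]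
    apply Real.rpow_le_rpow_of_exponent_le (by norm_num)
    push_cast
    have h6 : (m : ℝ) ≤ κ * n := Nat.floor_le (by positivity)
    rw [mul_assoc]
    exact mul_le_mul_of_nonneg_left h6 (Nat.cast_nonneg _)
  refine h4.trans (h2.trans ?_)
  have hT0 : (0 : ℝ) ≤ j * ((s : ℝ) + 1) ^ t * 2 ^ ((j - 1) * s) := by positivity
  generalize (j : ℝ) * ((s : ℝ) + 1) ^ t * 2 ^ ((j - 1) * s) = T at hT0 ⊢
  calc _ ≤ ((n : ℝ) + 1) ^ (s * j) * ((X (n - j * s)).card *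
        (2 ^ n * T ^ n * ((2 : ℝ) ^ (s * κ)) ^ n)) := by
        gcongr
    _ = _ := by
        rw [mul_pow (2 * T), mul_pow 2 T]
        ring

open Classical in
noncomputable def EB (X : (n : ℕ) → Finset (SimpleGraph (Fin n))) (j s t D : ℕ) (κ : ℝ) (n : ℕ) : Finset (SimpleGraph (Fin n)) :=
  (X n).filter (fun G => ∃ (x : Fin n) (Y : Fin j → Finset (Fin n)), IsBlow G Y s ∧
    (∀ a, ∀ y ∈ Y a, G.Adj x y) ∧ ((Full G Y t).filter (fun z => G.Adj x z)).card ≤ D ∧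
    κ * n ≤ ((Full G Y t).card : ℝ))

theorem negl_EB (X : (n : ℕ) → Finset (SimpleGraph (Fin n))) (hX : Hered X) (r j s t D : ℕ)
    (hr : 1 ≤ r) (κ : ℝ) (hκ : 1 / (r : ℝ) < κ) (hκ1 : κ ≤ 1) :
    Negl X r (EB X j s t D κ) := by
  classical
  have hr0 : (0 : ℝ) < r := by exact_mod_cast hr
  have hκ0 : 0 < κ := lt_trans (by positivity) hκ
  refine negl_of_bound X hr _ 1 (1 + s * j + D) le_rfl 2 ((2 : ℝ) ^ (1 - κ)) (by norm_num)
    (by positivity) ?_ 1 (fun n hn => ?_)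
  · rw [pow_one, bet]
    apply Real.rpow_lt_rpow_of_exponent_lt (by norm_num)
    linarith
  have hn0 : (0 : ℝ) < n := by exact_mod_cast hn
  set m := ⌈κ * n⌉₊ - 1 with hm
  have hc1 : 1 ≤ ⌈κ * n⌉₊ := Nat.one_le_ceil_iff.2 (by positivity)
  have hmn : m ≤ n := by
    have : ⌈κ * n⌉₊ ≤ n := Nat.ceil_le.2 (by nlinarith)
    omega
  have hmr : κ * n - 1 ≤ m := by
    have h1 : κ * n ≤ ⌈κ * n⌉₊ := Nat.le_ceil _
    have h2 : ((⌈κ * n⌉₊ : ℕ) : ℝ) = m + 1 := by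
      rw [hm, Nat.cast_sub hc1]
      simp
    linarith
  have h1 : EB X j s t D κ n ⊆ (((univ : Finset (Fin n)) ×ˢ tup n j s).filter
      (fun q => ∀ a, q.1 ∉ q.2 a)).biUnion (fun q => (X n).filter
        (fun G => ((Full G q.2 t).filter (fun z => G.Adj q.1 z)).card ≤ D ∧
          m + 1 ≤ (Full G q.2 t).card)) := by
    intro G hG
    rw [EB, mem_filter] at hG
    obtain ⟨hGf, x, Y, hY, hxY, hD, hF⟩ := hG
    rw [mem_biUnion]
    refine ⟨(x, Y), ?_, ?_⟩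
    · rw [mem_filter, mem_product, mem_tup]
      exact ⟨⟨mem_univ _, hY.1⟩, fun a ha => (hxY a x ha).ne rfl⟩
    · rw [mem_filter]
      refine ⟨hGf, hD, ?_⟩
      have h2 : ⌈κ * n⌉₊ ≤ (Full G Y t).card := Nat.ceil_le.2 hF
      have h3 : m + 1 = ⌈κ * n⌉₊ := by omega
      rw [h3]
      exact h2
  have h2 := union_le (((univ : Finset (Fin n)) ×ˢ tup n j s).filter
      (fun q => ∀ a, q.1 ∉ q.2 a)) (fun q => (X n).filter
        (fun G => ((Full G q.2 t).filter (fun z => G.Adj q.1 z)).card ≤ D ∧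
          m + 1 ≤ (Full G q.2 t).card)) _ (fun q hq => by
      rw [mem_filter] at hq
      exact classB X hX j t D m q.1 q.2 hq.2)
  have h3 : (((((univ : Finset (Fin n)) ×ˢ tup n j s).filter
      (fun q => ∀ a, q.1 ∉ q.2 a)).card : ℕ) : ℝ) ≤ ((n : ℝ) + 1) * ((n : ℝ) + 1) ^ (s * j) := by
    refine le_trans (b := ((((univ : Finset (Fin n)) ×ˢ tup n j s).card : ℕ) : ℝ)) ?_ ?_
    · exact_mod_cast Finset.card_filter_le _ _
    · rw [Finset.card_product, Finset.card_univ, Fintype.card_fin]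
      push_cast
      exact mul_le_mul (by linarith) (card_tup n j s) (Nat.cast_nonneg _) (by positivity)
  have h4 := (Nat.cast_le (α := ℝ)).2 (Finset.card_le_card h1)
  have h5 : (2 : ℝ) ^ (n - m) ≤ 2 * ((2 : ℝ) ^ (1 - κ)) ^ n := by
    rw [pow_rpow 2 _ (by norm_num), ← Real.rpow_natCast]
    have h6 : (2 : ℝ) * (2 : ℝ) ^ ((1 - κ) * n) = (2 : ℝ) ^ (1 + (1 - κ) * n) := by
      rw [Real.rpow_add (by norm_num), Real.rpow_one]
    rw [h6]
    apply Real.rpow_le_rpow_of_exponent_le (by norm_num)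
    rw [Nat.cast_sub hmn]
    linarith
  refine h4.trans (h2.trans ?_)
  calc _ ≤ (((n : ℝ) + 1) * ((n : ℝ) + 1) ^ (s * j)) * ((X (n - 1)).card *
        (((n : ℝ) + 1) ^ D * (2 * ((2 : ℝ) ^ (1 - κ)) ^ n))) := by
        gcongr
    _ = _ := by
        rw [pow_add, pow_add, pow_one]
        ring

open Classical in
noncomputable def EC (X : (n : ℕ) → Finset (SimpleGraph (Fin n))) (p s' τ j s t D : ℕ)
    (α κ : ℝ) (n : ℕ) : Finset (SimpleGraph (Fin n)) :=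
  (X n).filter (fun G => ∃ (x y : Fin n) (Y Y' : Fin p → Finset (Fin n))
    (W : Fin j → Finset (Fin n)), G.Adj x y ∧ (∀ a, (Y a).card = s') ∧ (∀ a, (Y' a).card = s') ∧
    (∀ a, (W a).card = s) ∧ (∀ a, ∀ z ∈ Y a, G.Adj x z ∧ z ≠ y) ∧
    (∀ a, ∀ z ∈ Y' a, G.Adj y z ∧ z ≠ x) ∧ (∀ a, ∀ z ∈ W a, G.Adj x z ∧ G.Adj y z) ∧
    ((Full G Y τ).filter (fun z => G.Adj x z)).card ≤ D ∧
    ((Full G Y' τ).filter (fun z => G.Adj y z)).card ≤ D ∧
    ((Full G W t).filter (fun z => G.Adj x z ∧ G.Adj y z)).card ≤ D ∧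
    α * n ≤ ((Full G Y τ).card : ℝ) ∧ α * n ≤ ((Full G Y' τ).card : ℝ) ∧
    κ * n ≤ ((Full G W t \ (Full G Y τ ∪ Full G Y' τ)).card : ℝ))

theorem pow_sub_le (b x : ℝ) (hb : 0 < b) (hb1 : b ≤ 1) (n i D : ℕ) (h : x * n - 2 ≤ i) :
    b ^ (i - D) ≤ (1 / b) ^ (2 + D) * (b ^ x) ^ n := by
  rw [pow_rpow b _ hb, ← Real.rpow_natCast b (i - D)]
  have h6 : (1 / b) ^ (2 + D) * b ^ (x * n) = b ^ (x * n - ((2 + D : ℕ) : ℝ)) := by
    rw [Real.rpow_sub hb, Real.rpow_natCast, eq_div_iff (by positivity)]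
    have : (1 / b) ^ (2 + D) * b ^ (2 + D) = 1 := by
      rw [← mul_pow, one_div, inv_mul_cancel₀ hb.ne', one_pow]
    calc (1 / b) ^ (2 + D) * b ^ (x * n) * b ^ (2 + D) =
          (1 / b) ^ (2 + D) * b ^ (2 + D) * b ^ (x * n) := by ring
      _ = _ := by rw [this, one_mul]
  rw [h6]
  apply Real.rpow_le_rpow_of_exponent_ge hb hb1
  have h8 : (i : ℝ) - D ≤ ((i - D : ℕ) : ℝ) := by
    rcases le_total D i with h | h
    · rw [Nat.cast_sub h]
    · rw [Nat.sub_eq_zero_of_le h]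
      have : (i : ℝ) ≤ D := by exact_mod_cast h
      push_cast
      linarith
  push_cast
  linarith

theorem negl_EC (X : (n : ℕ) → Finset (SimpleGraph (Fin n))) (hX : Hered X)
    (r p s' τ j s t D : ℕ) (hr : 1 ≤ r) (α κ : ℝ) (hα : 0 < α) (hκ : 0 < κ)
    (hc : 4 * ((1 / 2 : ℝ) ^ α) ^ 2 * (3 / 4 : ℝ) ^ κ < bet r ^ 2) :
    Negl X r (EC X p s' τ j s t D α κ) := by
  classical
  refine negl_of_bound X hr _ 2 (2 + (s' * p + s' * p + s * j) + (D + D + D)) (by norm_num)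
    ((1 / (1 / 2)) ^ (2 + D) * (1 / (1 / 2)) ^ (2 + D) * (1 / (3 / 4)) ^ (2 + D))
    (4 * ((1 / 2 : ℝ) ^ α) ^ 2 * (3 / 4 : ℝ) ^ κ) (by positivity)
    (by positivity) hc (⌈2 / α⌉₊ + ⌈2 / κ⌉₊) (fun n hn => ?_)
  have hnα : 2 ≤ α * n := by
    have h1 : 2 / α ≤ n := (Nat.le_ceil _).trans (by exact_mod_cast (by omega : ⌈2 / α⌉₊ ≤ n))
    rw [div_le_iff₀ hα] at h1
    linarith
  have hnκ : 2 ≤ κ * n := by
    have h1 : 2 / κ ≤ n := (Nat.le_ceil _).trans (by exact_mod_cast (by omega : ⌈2 / κ⌉₊ ≤ n))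
    rw [div_le_iff₀ hκ] at h1
    linarith
  set a := ⌈α * n⌉₊ - 2 with ha
  set i := ⌈κ * n⌉₊ - 2 with hi
  have ha2 : 2 ≤ ⌈α * n⌉₊ := by
    have h1 : ((2 : ℕ) : ℝ) ≤ ⌈α * n⌉₊ := by
      push_cast
      exact hnα.trans (Nat.le_ceil _)
    exact_mod_cast h1
  have hi2 : 2 ≤ ⌈κ * n⌉₊ := by
    have h1 : ((2 : ℕ) : ℝ) ≤ ⌈κ * n⌉₊ := by
      push_cast
      exact hnκ.trans (Nat.le_ceil _)
    exact_mod_cast h1
  have har : α * n - 2 ≤ a := by
    have h1 : α * n ≤ ⌈α * n⌉₊ := Nat.le_ceil _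
    have h2 : ((⌈α * n⌉₊ : ℕ) : ℝ) = a + 2 := by
      rw [ha, Nat.cast_sub ha2]
      push_cast
      ring
    linarith
  have hir : κ * n - 2 ≤ i := by
    have h1 : κ * n ≤ ⌈κ * n⌉₊ := Nat.le_ceil _
    have h2 : ((⌈κ * n⌉₊ : ℕ) : ℝ) = i + 2 := by
      rw [hi, Nat.cast_sub hi2]
      push_cast
      ring
    linarith
  set I : Finset ((Fin n × Fin n) × ((Fin p → Finset (Fin n)) × (Fin p → Finset (Fin n))) ×
      (Fin j → Finset (Fin n))) :=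
    ((univ ×ˢ univ) ×ˢ ((tup n p s' ×ˢ tup n p s') ×ˢ tup n j s)).filter
      (fun q => q.1.1 ≠ q.1.2 ∧ (∀ a, q.1.1 ∉ q.2.1.1 a ∧ q.1.2 ∉ q.2.1.1 a) ∧
        (∀ a, q.1.1 ∉ q.2.1.2 a ∧ q.1.2 ∉ q.2.1.2 a) ∧
        (∀ a, q.1.1 ∉ q.2.2 a ∧ q.1.2 ∉ q.2.2 a)) with hI
  have h1 : EC X p s' τ j s t D α κ n ⊆ I.biUnion (fun q => (X n).filter (fun G =>
      ((Full G q.2.1.1 τ).filter (fun z => G.Adj q.1.1 z)).card ≤ D ∧
      ((Full G q.2.1.2 τ).filter (fun z => G.Adj q.1.2 z)).card ≤ D ∧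
      ((Full G q.2.2 t).filter (fun z => G.Adj q.1.1 z ∧ G.Adj q.1.2 z)).card ≤ D ∧
      a + 2 ≤ (Full G q.2.1.1 τ).card ∧ a + 2 ≤ (Full G q.2.1.2 τ).card ∧
      i + 2 ≤ (Full G q.2.2 t \ (Full G q.2.1.1 τ ∪ Full G q.2.1.2 τ)).card)) := by
    intro G hG
    rw [EC, mem_filter] at hG
    obtain ⟨hGf, x, y, Y, Y', W, hxy, hY, hY', hW, hxX, hyY, hxW, hfX, hfY, hD, hα1, hα2, hκ1⟩ := hG
    rw [mem_biUnion]
    refine ⟨((x, y), ((Y, Y'), W)), ?_, ?_⟩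
    · rw [hI, mem_filter]
      refine ⟨?_, hxy.ne, ?_, ?_, ?_⟩
      · rw [mem_product, mem_product, mem_product, mem_product, mem_tup, mem_tup, mem_tup]
        exact ⟨⟨mem_univ _, mem_univ _⟩, ⟨hY, hY'⟩, hW⟩
      · exact fun a => ⟨fun h => (hxX a x h).1.ne rfl, fun h => (hxX a y h).2 rfl⟩
      · exact fun a => ⟨fun h => (hyY a x h).2 rfl, fun h => (hyY a y h).1.ne rfl⟩
      · exact fun a => ⟨fun h => (hxW a x h).1.ne rfl, fun h => (hxW a y h).2.ne rfl⟩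
    · rw [mem_filter]
      have e1 : a + 2 = ⌈α * n⌉₊ := by omega
      have e2 : i + 2 = ⌈κ * n⌉₊ := by omega
      refine ⟨hGf, hfX, hfY, hD, ?_, ?_, ?_⟩
      · rw [e1]
        exact Nat.ceil_le.2 hα1
      · rw [e1]
        exact Nat.ceil_le.2 hα2
      · rw [e2]
        exact Nat.ceil_le.2 hκ1
  have h2 := union_le I (fun q => (X n).filter (fun G =>
      ((Full G q.2.1.1 τ).filter (fun z => G.Adj q.1.1 z)).card ≤ D ∧
      ((Full G q.2.1.2 τ).filter (fun z => G.Adj q.1.2 z)).card ≤ D ∧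
      ((Full G q.2.2 t).filter (fun z => G.Adj q.1.1 z ∧ G.Adj q.1.2 z)).card ≤ D ∧
      a + 2 ≤ (Full G q.2.1.1 τ).card ∧ a + 2 ≤ (Full G q.2.1.2 τ).card ∧
      i + 2 ≤ (Full G q.2.2 t \ (Full G q.2.1.1 τ ∪ Full G q.2.1.2 τ)).card)) _ (fun q hq => by
      rw [hI, mem_filter] at hq
      exact classC X hX p j τ t D a i q.1.1 q.1.2 hq.2.1 q.2.1.1 q.2.1.2 q.2.2 hq.2.2.1 hq.2.2.2.1
        hq.2.2.2.2)
  have h3 : (I.card : ℝ) ≤ ((n : ℝ) + 1) ^ 2 * ((n : ℝ) + 1) ^ (s' * p + s' * p + s * j) := by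
    refine le_trans (b := (((((univ : Finset (Fin n)) ×ˢ (univ : Finset (Fin n))) ×ˢ
      ((tup n p s' ×ˢ tup n p s') ×ˢ tup n j s)).card : ℕ) : ℝ)) ?_ ?_
    · exact_mod_cast Finset.card_filter_le _ _
    · rw [Finset.card_product, Finset.card_product, Finset.card_product, Finset.card_product,
        Finset.card_univ, Fintype.card_fin]
      push_cast
      rw [pow_add, pow_add, sq]
      have e1 := card_tup n p s'
      have e2 := card_tup n j s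
      gcongr <;> linarith
  have h4 := (Nat.cast_le (α := ℝ)).2 (Finset.card_le_card h1)
  have h5 := pow_sub_le (1 / 2) α (by norm_num) (by norm_num) n a D har
  have h7 := pow_sub_le (3 / 4) κ (by norm_num) (by norm_num) n i D hir
  refine h4.trans (h2.trans ?_)
  calc _ ≤ (((n : ℝ) + 1) ^ 2 * ((n : ℝ) + 1) ^ (s' * p + s' * p + s * j)) *
        ((X (n - 2)).card * (((n : ℝ) + 1) ^ (D + D + D) *
          (4 ^ n * ((1 / (1 / 2)) ^ (2 + D) * ((1 / 2 : ℝ) ^ α) ^ n) *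
            ((1 / (1 / 2)) ^ (2 + D) * ((1 / 2 : ℝ) ^ α) ^ n) *
            ((1 / (3 / 4)) ^ (2 + D) * ((3 / 4 : ℝ) ^ κ) ^ n)))) := by
        gcongr
    _ = _ := by
        rw [mul_pow, mul_pow, ← pow_mul ((1 / 2 : ℝ) ^ α), mul_comm 2 n,
          pow_mul ((1 / 2 : ℝ) ^ α), pow_add _ (2 + _) (D + D + D), pow_add _ 2 _]
        ring

end Pool.Agent.Q6.PS
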