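import Pool.Agent.Q6.PS.Count

/-!
# A graph whose blow-ups behave as in a random `(p + 1)`-partite graph is `(p + 1)`-colourable
-/

set_option autoImplicit false
set_option maxHeartbeats 400000

namespace Pool.Agent.Q6.PS

open Finset

variable {V : Type} [Fintype V] [DecidableEq V]

theorem sdiff_tri (A B C : Finset V) : ((A \ C).card : ℝ) ≤ (A \ B).card + (B \ C).card := by
  have h1 : A \ C ⊆ (A \ B) ∪ (B \ C) := by
    intro z hz
    rw [Finset.mem_sdiff] at hz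
    rw [Finset.mem_union, Finset.mem_sdiff, Finset.mem_sdiff]
    by_cases h : z ∈ B
    · exact Or.inr ⟨h, hz.2⟩
    · exact Or.inl ⟨hz.1, h⟩
  exact_mod_cast (Finset.card_le_card h1).trans (Finset.card_union_le _ _)

/-- a lower bound for the union of nearly disjoint sets -/
theorem union_lower {ι : Type} [DecidableEq ι] [Fintype ι] (A : ι → Finset V) (δ : ℝ)
    (hδ : ∀ a b, a ≠ b → ((A a ∩ A b).card : ℝ) ≤ δ) (hδ0 : 0 ≤ δ) (S : Finset ι) :
    ∑ a ∈ S, ((A a).card : ℝ) - S.card * (Fintype.card ι * δ) ≤ ((S.biUnion A).card : ℝ) := by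
  induction S using Finset.induction_on with
  | empty => simp
  | insert a S ha ih =>
    rw [Finset.sum_insert ha, Finset.card_insert_of_notMem ha, Finset.biUnion_insert]
    have h1 : ((A a ∪ S.biUnion A).card : ℝ) + (A a ∩ S.biUnion A).card =
        (A a).card + (S.biUnion A).card := by
      exact_mod_cast Finset.card_union_add_card_inter _ _
    have h2 : ((A a ∩ S.biUnion A).card : ℝ) ≤ Fintype.card ι * δ := by
      have h3 : A a ∩ S.biUnion A = S.biUnion (fun b => A a ∩ A b) := by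
        ext z
        simp only [mem_inter, mem_biUnion]
        constructor
        · rintro ⟨h4, b, hb, h5⟩
          exact ⟨b, hb, h4, h5⟩
        · rintro ⟨b, hb, h4, h5⟩
          exact ⟨h4, b, hb, h5⟩
      rw [h3]
      have h4 : ((S.biUnion (fun b => A a ∩ A b)).card : ℝ) ≤
          ∑ b ∈ S, ((A a ∩ A b).card : ℝ) := by
        exact_mod_cast Finset.card_biUnion_le
      refine h4.trans ?_
      have h5 : ∑ b ∈ S, ((A a ∩ A b).card : ℝ) ≤ ∑ _b ∈ S, δ := by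
        apply Finset.sum_le_sum
        intro b hb
        exact hδ a b (fun h => ha (h ▸ hb))
      refine h5.trans ?_
      rw [Finset.sum_const, nsmul_eq_mul]
      apply mul_le_mul_of_nonneg_right _ hδ0
      exact_mod_cast Finset.card_le_univ S
    push_cast
    linarith

theorem inter_upper {ι : Type} [Fintype ι] [DecidableEq ι] (A : ι → Finset V) (B : Finset V)
    (δ : ℝ) (hδ : ∀ a, ((B ∩ A a).card : ℝ) ≤ δ) :
    ((B ∩ univ.biUnion A).card : ℝ) ≤ Fintype.card ι * δ := by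
  have h3 : B ∩ univ.biUnion A = univ.biUnion (fun b => B ∩ A b) := by
    ext z
    simp only [mem_inter, mem_biUnion, mem_univ, true_and]
    constructor
    · rintro ⟨h4, b, h5⟩
      exact ⟨b, h4, h5⟩
    · rintro ⟨b, h4, h5⟩
      exact ⟨h4, b, h5⟩
  rw [h3]
  have h4 : ((univ.biUnion (fun b => B ∩ A b)).card : ℝ) ≤ ∑ b : ι, ((B ∩ A b).card : ℝ) := by
    exact_mod_cast Finset.card_biUnion_le
  refine h4.trans ?_
  have h5 : ∑ b : ι, ((B ∩ A b).card : ℝ) ≤ ∑ _b : ι, δ := Finset.sum_le_sum (fun b _ => hδ b)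
  refine h5.trans (le_of_eq ?_)
  rw [Finset.sum_const, nsmul_eq_mul, Finset.card_univ]

section

variable (G : SimpleGraph V) (p s τ M : ℕ) (n μ : ℝ) (hn : (Fintype.card V : ℝ) = n)
  (hn0 : 0 < n) (hμ : 0 ≤ μ) (hp : 1 ≤ p) (hs : 1 ≤ s) (hτ : 1 ≤ τ) (hM : 2 * (p * s) + p + 2 ≤ M)
  (hμ2 : 200 * ((p : ℝ) + 1) ^ 3 * μ ≤ 1)
  (h1 : ∀ (x : V) (Z : Finset V), Z.card ≤ M → ∃ Y : Fin p → Finset V, IsBlow G Y s ∧
    ∀ a, ∀ y ∈ Y a, G.Adj x y ∧ y ∉ Z)
  (h2 : ∀ Y : Fin p → Finset V, IsBlow G Y s →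
    (1 / ((p : ℝ) + 1) - μ) * n ≤ ((Full G Y τ).card : ℝ))
  (h3 : ∀ (x : V) (Y : Fin p → Finset V), IsBlow G Y s → (∀ a, ∀ y ∈ Y a, G.Adj x y) →
    ((Full G Y τ).card : ℝ) ≤ (1 / ((p : ℝ) + 1) + μ) * n)
  (h4 : ∀ x y, G.Adj x y → ∀ X Y : Fin p → Finset V, IsBlow G X s → IsBlow G Y s →
    (∀ a, ∀ z ∈ X a, G.Adj x z ∧ z ≠ y) → (∀ a, ∀ z ∈ Y a, G.Adj y z ∧ z ≠ x) →
    (2 / ((p : ℝ) + 1) - μ) * n ≤ ((Full G X τ ∪ Full G Y τ).card : ℝ))

include h3 h4 in
theorem edge_small (x y : V) (hxy : G.Adj x y) (X Y : Fin p → Finset V) (hX : IsBlow G X s)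
    (hY : IsBlow G Y s) (hxX : ∀ a, ∀ z ∈ X a, G.Adj x z ∧ z ≠ y)
    (hyY : ∀ a, ∀ z ∈ Y a, G.Adj y z ∧ z ≠ x) :
    ((Full G X τ ∩ Full G Y τ).card : ℝ) ≤ 3 * μ * n := by
  have e1 := h4 x y hxy X Y hX hY hxX hyY
  have e2 := h3 x X hX (fun a z hz => (hxX a z hz).1)
  have e3 := h3 y Y hY (fun a z hz => (hyY a z hz).1)
  have e4 : ((Full G X τ ∪ Full G Y τ).card : ℝ) + (Full G X τ ∩ Full G Y τ).card =
      (Full G X τ).card + (Full G Y τ).card := by
    exact_mod_cast Finset.card_union_add_card_inter _ _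
  have e5 : (2 / ((p : ℝ) + 1) - μ) * n = 2 * ((1 / ((p : ℝ) + 1)) * n) - μ * n := by ring
  have e6 : (1 / ((p : ℝ) + 1) + μ) * n = (1 / ((p : ℝ) + 1)) * n + μ * n := by ring
  rw [e5] at e1
  rw [e6] at e2 e3
  linarith

include hn hn0 hμ hp hM h1 h2 h3 h4 in
theorem near (x x' : V) (T : Fin p → V) (hT : ∀ a b, a ≠ b → G.Adj (T a) (T b))
    (hxT : ∀ a, G.Adj x (T a)) (hxT' : ∀ a, G.Adj x' (T a)) (Y Y' : Fin p → Finset V)
    (hY : IsBlow G Y s) (hY' : IsBlow G Y' s)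
    (hxY : ∀ a, ∀ y ∈ Y a, G.Adj x y ∧ ∀ b, y ≠ T b)
    (hxY' : ∀ a, ∀ y ∈ Y' a, G.Adj x' y ∧ ∀ b, y ≠ T b) :
    ((Full G Y τ \ Full G Y' τ).card : ℝ) ≤ 11 * (p : ℝ) ^ 2 * μ * n := by
  set Z : Finset V := insert x (insert x' (univ.image T)) with hZ
  have hZc : Z.card ≤ M := by
    have e1 : Z.card ≤ (univ.image T).card + 1 + 1 :=
      (Finset.card_insert_le _ _).trans (Nat.add_le_add_right (Finset.card_insert_le _ _) _)
    have e2 : (univ.image T).card ≤ p := by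
      refine Finset.card_image_le.trans ?_
      rw [Finset.card_univ, Fintype.card_fin]
    omega
  have hch := fun a => h1 (T a) Z hZc
  choose W hW hWT using hch
  have hxZ : x ∈ Z := Finset.mem_insert_self _ _
  have hxZ' : x' ∈ Z := Finset.mem_insert_of_mem (Finset.mem_insert_self _ _)
  have hTZ : ∀ b, T b ∈ Z := fun b => Finset.mem_insert_of_mem (Finset.mem_insert_of_mem
    (Finset.mem_image_of_mem T (mem_univ b)))
  set A : Fin p → Finset V := fun a => Full G (W a) τ with hA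
  have hμn : 0 ≤ 3 * μ * n := by positivity
  have d1 : ∀ a, ((Full G Y τ ∩ A a).card : ℝ) ≤ 3 * μ * n := by
    intro a
    refine edge_small G p s τ n μ h3 h4 x (T a) (hxT a) Y (W a) hY (hW a) ?_ ?_
    · intro b z hz
      exact ⟨(hxY b z hz).1, (hxY b z hz).2 a⟩
    · intro b z hz
      have := hWT a b z hz
      exact ⟨this.1, fun h => this.2 (h ▸ hxZ)⟩
  have d2 : ∀ a, ((Full G Y' τ ∩ A a).card : ℝ) ≤ 3 * μ * n := by
    intro a
    refine edge_small G p s τ n μ h3 h4 x' (T a) (hxT' a) Y' (W a) hY' (hW a) ?_ ?_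
    · intro b z hz
      exact ⟨(hxY' b z hz).1, (hxY' b z hz).2 a⟩
    · intro b z hz
      have := hWT a b z hz
      exact ⟨this.1, fun h => this.2 (h ▸ hxZ')⟩
  have d3 : ∀ a b, a ≠ b → ((A a ∩ A b).card : ℝ) ≤ 3 * μ * n := by
    intro a b hab
    refine edge_small G p s τ n μ h3 h4 (T a) (T b) (hT a b hab) (W a) (W b) (hW a) (hW b) ?_ ?_
    · intro c z hz
      have := hWT a c z hz
      exact ⟨this.1, fun h => this.2 (h ▸ hTZ b)⟩
    · intro c z hz
      have := hWT b c z hz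
      exact ⟨this.1, fun h => this.2 (h ▸ hTZ a)⟩
  have d4 := union_lower A (3 * μ * n) d3 hμn univ
  rw [Finset.card_univ, Fintype.card_fin] at d4
  have d5 : (p : ℝ) * ((1 / ((p : ℝ) + 1) - μ) * n) ≤ ∑ a : Fin p, ((A a).card : ℝ) := by
    have : ∑ _a : Fin p, ((1 / ((p : ℝ) + 1) - μ) * n) ≤ ∑ a : Fin p, ((A a).card : ℝ) :=
      Finset.sum_le_sum (fun a _ => h2 (W a) (hW a))
    rwa [Finset.sum_const, Finset.card_univ, Fintype.card_fin, nsmul_eq_mul] at this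
  set C : Finset V := univ.biUnion A with hC
  have d6 := inter_upper A (Full G Y τ) (3 * μ * n) d1
  have d7 := inter_upper A (Full G Y' τ) (3 * μ * n) d2
  rw [Fintype.card_fin] at d6 d7
  rw [← hC] at d6 d7
  have d8 := h2 Y' hY'
  have d9 : ((Full G Y' τ ∪ C).card : ℝ) + (Full G Y' τ ∩ C).card =
      (Full G Y' τ).card + C.card := by
    exact_mod_cast Finset.card_union_add_card_inter _ _
  have d10 : ((univ \ (Full G Y' τ ∪ C)).card : ℝ) + (Full G Y' τ ∪ C).card = n := by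
    rw [← hn]
    exact_mod_cast Finset.card_sdiff_add_card_eq_card (Finset.subset_univ (Full G Y' τ ∪ C))
  have d11 : Full G Y τ \ Full G Y' τ ⊆ (Full G Y τ ∩ C) ∪ (univ \ (Full G Y' τ ∪ C)) := by
    intro z hz
    rw [Finset.mem_sdiff] at hz
    rw [Finset.mem_union, Finset.mem_inter, Finset.mem_sdiff, Finset.mem_union]
    by_cases h : z ∈ C
    · exact Or.inl ⟨hz.1, h⟩
    · exact Or.inr ⟨mem_univ _, fun h' => h'.elim hz.2 h⟩
  have d12 : ((Full G Y τ \ Full G Y' τ).card : ℝ) ≤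
      (Full G Y τ ∩ C).card + (univ \ (Full G Y' τ ∪ C)).card := by
    exact_mod_cast (Finset.card_le_card d11).trans (Finset.card_union_le _ _)
  have hp1 : (1 : ℝ) ≤ p := by exact_mod_cast hp
  have hq : (p : ℝ) * ((1 / ((p : ℝ) + 1) - μ) * n) + (1 / ((p : ℝ) + 1) - μ) * n =
      n - (p + 1) * (μ * n) := by
    field_simp
  have hμn' : 0 ≤ μ * n := by positivity
  have e1 : ((Full G Y τ \ Full G Y' τ).card : ℝ) ≤
      (3 * (p : ℝ) ^ 2 + 7 * p + 1) * (μ * n) := by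
    nlinarith
  refine e1.trans ?_
  have e2 : (3 * (p : ℝ) ^ 2 + 7 * p + 1) ≤ 11 * (p : ℝ) ^ 2 := by nlinarith
  calc (3 * (p : ℝ) ^ 2 + 7 * p + 1) * (μ * n) ≤ 11 * (p : ℝ) ^ 2 * (μ * n) :=
        mul_le_mul_of_nonneg_right e2 hμn'
    _ = _ := by ring

include hn hn0 hμ hp hs hM h1 h2 h3 h4 in
theorem claim1 (x : V) (Y Y' : Fin p → Finset V) (hY : IsBlow G Y s) (hY' : IsBlow G Y' s)
    (hxY : ∀ a, ∀ y ∈ Y a, G.Adj x y) (hxY' : ∀ a, ∀ y ∈ Y' a, G.Adj x y) :
    ((Full G Y τ \ Full G Y' τ).card : ℝ) ≤ 11 * (p : ℝ) ^ 2 * μ * n := by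
  set Z : Finset V := univ.biUnion Y ∪ univ.biUnion Y' with hZ
  have hc : ∀ X : Fin p → Finset V, IsBlow G X s → (univ.biUnion X).card ≤ p * s := by
    intro X hX
    refine Finset.card_biUnion_le.trans (le_of_eq ?_)
    rw [Finset.sum_congr rfl (fun a _ => hX.1 a), Finset.sum_const, Finset.card_univ,
      Fintype.card_fin, smul_eq_mul]
  have hZc : Z.card ≤ M := by
    have e1 : Z.card ≤ (univ.biUnion Y).card + (univ.biUnion Y').card :=
      Finset.card_union_le (univ.biUnion Y) (univ.biUnion Y')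
    have e2 := hc Y hY
    have e3 := hc Y' hY'
    omega
  obtain ⟨X, hX, hxX⟩ := h1 x Z hZc
  have hne : ∀ a, (X a).Nonempty := by
    intro a
    rw [← Finset.card_pos, hX.1 a]
    omega
  choose T hT using hne
  refine near G p s τ M n μ hn hn0 hμ hp hM h1 h2 h3 h4 x x T
    (fun a b hab => hX.2 a b hab _ (hT a) _ (hT b)) (fun a => (hxX a _ (hT a)).1)
    (fun a => (hxX a _ (hT a)).1) Y Y' hY hY' ?_ ?_
  · intro a y hy
    refine ⟨hxY a y hy, fun b h => (hxX b _ (hT b)).2 ?_⟩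
    rw [← h, hZ]
    exact Finset.mem_union_left _ (Finset.mem_biUnion.2 ⟨a, mem_univ _, hy⟩)
  · intro a y hy
    refine ⟨hxY' a y hy, fun b h => (hxX b _ (hT b)).2 ?_⟩
    rw [← h, hZ]
    exact Finset.mem_union_right _ (Finset.mem_biUnion.2 ⟨a, mem_univ _, hy⟩)

include hn hn0 hμ hp hs hτ hM h1 h2 h3 h4 in
theorem claim2 (u z : V) (Y Y' : Fin p → Finset V) (hY : IsBlow G Y s) (hY' : IsBlow G Y' s)
    (huY : ∀ a, ∀ y ∈ Y a, G.Adj u y) (hzY : ∀ a, ∀ y ∈ Y' a, G.Adj z y)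
    (hz : z ∈ Full G Y τ) :
    ((Full G Y τ \ Full G Y' τ).card : ℝ) ≤ 3 * (11 * (p : ℝ) ^ 2 * μ * n) ∧
    ((Full G Y' τ \ Full G Y τ).card : ℝ) ≤ 3 * (11 * (p : ℝ) ^ 2 * μ * n) := by
  rw [mem_Full] at hz
  have hne : ∀ a, (nb G z (Y a)).Nonempty := fun a => Finset.card_pos.1 (hτ.trans (hz a))
  choose T hT using hne
  have hT' : ∀ a, T a ∈ Y a ∧ G.Adj z (T a) := fun a => (mem_nb G z (Y a) (T a)).1 (hT a)
  have hZc : (univ.image T).card ≤ M := by
    have e2 : (univ.image T).card ≤ p := by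
      refine Finset.card_image_le.trans ?_
      rw [Finset.card_univ, Fintype.card_fin]
    omega
  obtain ⟨X, hX, huX⟩ := h1 u (univ.image T) hZc
  obtain ⟨X', hX', hzX⟩ := h1 z (univ.image T) hZc
  have hTT : ∀ a b, a ≠ b → G.Adj (T a) (T b) :=
    fun a b hab => hY.2 a b hab _ (hT' a).1 _ (hT' b).1
  have hni : ∀ (y : V), y ∉ univ.image T → ∀ b, y ≠ T b := by
    intro y hy b h
    exact hy (h ▸ Finset.mem_image_of_mem T (mem_univ b))
  have n1 := near G p s τ M n μ hn hn0 hμ hp hM h1 h2 h3 h4 u z T hTT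
    (fun a => huY a _ (hT' a).1) (fun a => (hT' a).2) X X' hX hX'
    (fun a y hy => ⟨(huX a y hy).1, hni y (huX a y hy).2⟩)
    (fun a y hy => ⟨(hzX a y hy).1, hni y (hzX a y hy).2⟩)
  have n2 := near G p s τ M n μ hn hn0 hμ hp hM h1 h2 h3 h4 z u T hTT
    (fun a => (hT' a).2) (fun a => huY a _ (hT' a).1) X' X hX' hX
    (fun a y hy => ⟨(hzX a y hy).1, hni y (hzX a y hy).2⟩)
    (fun a y hy => ⟨(huX a y hy).1, hni y (huX a y hy).2⟩)
  have c1 := claim1 G p s τ M n μ hn hn0 hμ hp hs hM h1 h2 h3 h4 u Y X hY hX huY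
    (fun a y hy => (huX a y hy).1)
  have c2 := claim1 G p s τ M n μ hn hn0 hμ hp hs hM h1 h2 h3 h4 u X Y hX hY
    (fun a y hy => (huX a y hy).1) huY
  have c3 := claim1 G p s τ M n μ hn hn0 hμ hp hs hM h1 h2 h3 h4 z Y' X' hY' hX' hzY
    (fun a y hy => (hzX a y hy).1)
  have c4 := claim1 G p s τ M n μ hn hn0 hμ hp hs hM h1 h2 h3 h4 z X' Y' hX' hY'
    (fun a y hy => (hzX a y hy).1) hzY
  constructor
  · have t1 := sdiff_tri (Full G Y τ) (Full G X τ) (Full G Y' τ)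
    have t2 := sdiff_tri (Full G X τ) (Full G X' τ) (Full G Y' τ)
    linarith
  · have t1 := sdiff_tri (Full G Y' τ) (Full G X' τ) (Full G Y τ)
    have t2 := sdiff_tri (Full G X' τ) (Full G X τ) (Full G Y τ)
    linarith

include hn hn0 hμ hp hs hτ hM hμ2 h1 h2 h3 h4 in
theorem struct : G.Colorable (p + 1) := by
  classical
  have hch := fun x => h1 x ∅ (by simp)
  choose Y hY hxY using hch
  set A : V → Finset V := fun x => Full G (Y x) τ with hA
  set ε : ℝ := 11 * (p : ℝ) ^ 2 * μ * n with hε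
  have hp1 : (1 : ℝ) ≤ p := by exact_mod_cast hp
  have hxY' : ∀ x a, ∀ y ∈ Y x a, G.Adj x y := fun x a y hy => (hxY x a y hy).1
  -- sets with a common vertex are nearly equal
  have k1 : ∀ u v, (A u ∩ A v).Nonempty → ((A u \ A v).card : ℝ) ≤ 6 * ε := by
    rintro u v ⟨z, hz⟩
    rw [Finset.mem_inter] at hz
    have e1 := claim2 G p s τ M n μ hn hn0 hμ hp hs hτ hM h1 h2 h3 h4 u z (Y u) (Y z) (hY u) (hY z)
      (hxY' u) (hxY' z) hz.1
    have e2 := claim2 G p s τ M n μ hn hn0 hμ hp hs hτ hM h1 h2 h3 h4 v z (Y v) (Y z) (hY v) (hY z)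
      (hxY' v) (hxY' z) hz.2
    have t := sdiff_tri (A u) (A z) (A v)
    have e3 : ((A u \ A z).card : ℝ) ≤ 3 * ε := e1.1
    have e4 : ((A z \ A v).card : ℝ) ≤ 3 * ε := e2.2
    linarith
  have hA2 : ∀ x, (1 / ((p : ℝ) + 1) - μ) * n ≤ ((A x).card : ℝ) := fun x => h2 _ (hY x)
  -- the constants
  have hpp : (0 : ℝ) < (p : ℝ) + 1 := by linarith
  have hp3 : (1 : ℝ) ≤ ((p : ℝ) + 1) ^ 3 := one_le_pow₀ (by linarith)
  have hμ3 : μ * (200 * ((p : ℝ) + 1) ^ 2) ≤ 1 / ((p : ℝ) + 1) := by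
    rw [le_div_iff₀ hpp]
    calc μ * (200 * ((p : ℝ) + 1) ^ 2) * ((p : ℝ) + 1) = 200 * ((p : ℝ) + 1) ^ 3 * μ := by ring
      _ ≤ 1 := hμ2
  have hc1 : (0 : ℝ) < 1 / ((p : ℝ) + 1) := by positivity
  have hμ4 : μ * (158 * ((p : ℝ) + 1) ^ 2) < 1 / ((p : ℝ) + 1) := by
    rcases hμ.eq_or_lt with h | h
    · rw [← h, zero_mul]
      exact hc1
    · refine lt_of_lt_of_le ?_ hμ3
      apply mul_lt_mul_of_pos_left _ h
      have : (0 : ℝ) < ((p : ℝ) + 1) ^ 2 := by positivity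
      linarith
  have hμ5 : μ < 1 / ((p : ℝ) + 1) := by
    refine lt_of_le_of_lt ?_ hμ4
    have : (1 : ℝ) ≤ 158 * ((p : ℝ) + 1) ^ 2 := by nlinarith
    nlinarith
  have hApos : ∀ x, (A x).Nonempty := by
    intro x
    rw [← Finset.card_pos]
    have e1 := hA2 x
    have e2 : 0 < (1 / ((p : ℝ) + 1) - μ) * n := mul_pos (by linarith) hn0
    have e3 : (0 : ℝ) < (A x).card := by linarith
    exact_mod_cast e3
  -- a largest family of pairwise disjoint sets
  set Fam : Finset (Finset V) := univ.filter (fun S => ∀ u ∈ S, ∀ v ∈ S, u ≠ v →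
    Disjoint (A u) (A v)) with hFam
  have hFne : Fam.Nonempty := ⟨∅, by simp [hFam]⟩
  obtain ⟨S, hSF, hSmax⟩ := Finset.exists_max_image Fam Finset.card hFne
  have hSd : ∀ u ∈ S, ∀ v ∈ S, u ≠ v → Disjoint (A u) (A v) := by
    rw [hFam, mem_filter] at hSF
    exact hSF.2
  have hScard : S.card ≤ p + 1 := by
    by_contra hcon
    push Not at hcon
    have e1 : (S.biUnion A).card = ∑ u ∈ S, (A u).card := Finset.card_biUnion hSd
    have e2 : ((S.biUnion A).card : ℝ) ≤ n := by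
      rw [← hn]
      exact_mod_cast Finset.card_le_univ _
    have e3 : (S.card : ℝ) * ((1 / ((p : ℝ) + 1) - μ) * n) ≤ ((S.biUnion A).card : ℝ) := by
      rw [e1]
      push_cast
      have := Finset.sum_le_sum (s := S) (fun x _ => hA2 x)
      rwa [Finset.sum_const, nsmul_eq_mul] at this
    have e4 : ((p : ℝ) + 2) ≤ S.card := by
      have : p + 2 ≤ S.card := by omega
      exact_mod_cast this
    have e5 : 0 < (1 / ((p : ℝ) + 1) - μ) * n := mul_pos (by linarith) hn0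
    have e6 : ((p : ℝ) + 2) * ((1 / ((p : ℝ) + 1) - μ) * n) ≤ n := by nlinarith
    have e7 : ((p : ℝ) + 2) * (1 / ((p : ℝ) + 1) - μ) ≤ 1 := by
      have e8 : ((p : ℝ) + 2) * (1 / ((p : ℝ) + 1) - μ) * n ≤ 1 * n := by linarith
      exact le_of_mul_le_mul_right e8 hn0
    have e8 : ((p : ℝ) + 2) * (1 / ((p : ℝ) + 1)) = 1 + 1 / ((p : ℝ) + 1) := by
      field_simp
      ring
    have e9 : ((p : ℝ) + 2) * μ < 1 / ((p : ℝ) + 1) := by
      refine lt_of_le_of_lt ?_ hμ4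
      rw [mul_comm]
      apply mul_le_mul_of_nonneg_left _ hμ
      nlinarith
    nlinarith
  have hex : ∀ v, ∃ u ∈ S, (A u ∩ A v).Nonempty := by
    intro v
    by_contra hcon
    push Not at hcon
    have hvS : v ∉ S := by
      intro hv
      have := hcon v hv
      rw [Finset.inter_self] at this
      exact (hApos v).ne_empty this
    have hins : insert v S ∈ Fam := by
      rw [hFam, mem_filter]
      refine ⟨mem_univ _, ?_⟩
      intro a ha b hb hab
      rw [Finset.mem_insert] at ha hb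
      rcases ha with rfl | ha
      · rcases hb with rfl | hb
        · exact absurd rfl hab
        · rw [Finset.disjoint_iff_inter_eq_empty, Finset.inter_comm]
          exact hcon b hb
      · rcases hb with rfl | hb
        · rw [Finset.disjoint_iff_inter_eq_empty]
          exact hcon a ha
        · exact hSd a ha b hb hab
    have := hSmax _ hins
    rw [Finset.card_insert_of_notMem hvS] at this
    omega
  choose c hcS hc using hex
  have hcol : ∀ v v', G.Adj v v' → c v ≠ c v' := by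
    intro v v' hvv he
    obtain ⟨X, hX, hvX⟩ := h1 v {v'} (by rw [Finset.card_singleton]; omega)
    obtain ⟨X', hX', hvX'⟩ := h1 v' {v} (by rw [Finset.card_singleton]; omega)
    have e1 := edge_small G p s τ n μ h3 h4 v v' hvv X X' hX hX'
      (fun a z hz => ⟨(hvX a z hz).1, fun h => (hvX a z hz).2 (by simp [h])⟩)
      (fun a z hz => ⟨(hvX' a z hz).1, fun h => (hvX' a z hz).2 (by simp [h])⟩)
    have e2 : ((Full G X τ \ A v).card : ℝ) ≤ ε :=
      claim1 G p s τ M n μ hn hn0 hμ hp hs hM h1 h2 h3 h4 v X (Y v) hX (hY v)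
      (fun a z hz => (hvX a z hz).1) (hxY' v)
    have e3 : ((A v' \ Full G X' τ).card : ℝ) ≤ ε :=
      claim1 G p s τ M n μ hn hn0 hμ hp hs hM h1 h2 h3 h4 v' (Y v') X' (hY v') hX'
      (hxY' v') (fun a z hz => (hvX' a z hz).1)
    have e4 : ((A v \ A (c v)).card : ℝ) ≤ 6 * ε := k1 v (c v) (by
      rw [Finset.inter_comm]
      exact hc v)
    have e5 : ((A (c v) \ A v').card : ℝ) ≤ 6 * ε := k1 (c v) v' (by
      rw [he]
      exact hc v')
    have t1 := sdiff_tri (A v) (A (c v)) (A v')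
    have t2 := sdiff_tri (Full G X τ) (A v) (Full G X' τ)
    have t3 := sdiff_tri (A v) (A v') (Full G X' τ)
    have e6 := h2 X hX
    have e7 : ((Full G X τ \ Full G X' τ).card : ℝ) + (Full G X τ ∩ Full G X' τ).card =
        (Full G X τ).card := by
      exact_mod_cast Finset.card_sdiff_add_card_inter _ _
    have e8 : (1 / ((p : ℝ) + 1) - μ) * n ≤ 14 * ε + 3 * μ * n := by linarith
    have e9 : (1 / ((p : ℝ) + 1)) * n ≤ (154 * (p : ℝ) ^ 2 + 4) * μ * n := by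
      rw [hε] at e8
      nlinarith
    have e10 : 1 / ((p : ℝ) + 1) ≤ (154 * (p : ℝ) ^ 2 + 4) * μ := le_of_mul_le_mul_right e9 hn0
    have e11 : (154 * (p : ℝ) ^ 2 + 4) * μ ≤ μ * (158 * ((p : ℝ) + 1) ^ 2) := by
      rw [mul_comm]
      apply mul_le_mul_of_nonneg_left _ hμ
      nlinarith
    linarith
  have h5 : G.Colorable (Fintype.card S) :=
    (SimpleGraph.Coloring.mk (fun v => (⟨c v, hcS v⟩ : S)) (fun {u v} huv he =>
      hcol u v huv (congrArg Subtype.val he))).colorable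
  rw [Fintype.card_coe] at h5
  exact h5.mono hScard

end

end Pool.Agent.Q6.PS
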